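import Pool.Agent.V1153.XS.Thin
import Pool.Agent.V1153.UG.Img

/-!
Sums of products of polynomials and exponentials of entire functions, and rational maps.
-/

set_option autoImplicit false

namespace Pool.Agent.V1153.UR

open MvPolynomial Pool.Agent.V1153.UG Pool.Agent.V1153.XS

theorem expSum_const (k : ℕ) (c : ℂ) : ExpSum k 1 0 fun _ => c := by
  refine ⟨fun _ => C c, fun _ _ => 0, fun i => ⟨by rw [totalDegree_C], differentiable_const _⟩,
    fun z => ?_⟩
  simp

theorem ExpSum.add {k r d r' d' : ℕ} {f h : (Fin k → ℂ) → ℂ} (hf : ExpSum k r d f)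
    (hh : ExpSum k r' d' h) : ExpSum k (r + r') (max d d') fun z => f z + h z := by
  obtain ⟨p, g, h1, h2⟩ := hf
  obtain ⟨p', g', h3, h4⟩ := hh
  refine ⟨Fin.append p p', Fin.append g g', fun i => ?_, fun z => ?_⟩
  · refine Fin.addCases (fun i => ?_) (fun i => ?_) i
    · rw [Fin.append_left, Fin.append_left]
      exact ⟨(h1 i).1.trans (le_max_left _ _), (h1 i).2⟩
    · rw [Fin.append_right, Fin.append_right]
      exact ⟨(h3 i).1.trans (le_max_right _ _), (h3 i).2⟩
  · change f z + h z = _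
    rw [Fin.sum_univ_add, h2, h4]
    simp only [Fin.append_left, Fin.append_right]

theorem ExpSum.mul {k r d r' d' : ℕ} {f h : (Fin k → ℂ) → ℂ} (hf : ExpSum k r d f)
    (hh : ExpSum k r' d' h) : ExpSum k (r * r') (d + d') fun z => f z * h z := by
  obtain ⟨p, g, h1, h2⟩ := hf
  obtain ⟨p', g', h3, h4⟩ := hh
  refine ⟨fun i => p (finProdFinEquiv.symm i).1 * p' (finProdFinEquiv.symm i).2,
    fun i z => g (finProdFinEquiv.symm i).1 z + g' (finProdFinEquiv.symm i).2 z,
    fun i => ⟨(totalDegree_mul _ _).trans (add_le_add (h1 _).1 (h3 _).1),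
      (h1 _).2.add (h3 _).2⟩, fun z => ?_⟩
  change f z * h z = _
  rw [h2, h4, Finset.sum_mul_sum, ← Finset.sum_product', Finset.univ_product_univ]
  refine Fintype.sum_equiv finProdFinEquiv _ _ fun x => ?_
  simp only [Equiv.symm_apply_apply, map_mul, Complex.exp_add]
  ring

theorem ExpSum.mono {k r d r' d' : ℕ} {f : (Fin k → ℂ) → ℂ} (hf : ExpSum k r d f)
    (hr : r ≤ r') (hd : d ≤ d') : ExpSum k r' d' f := by
  obtain ⟨p, g, h1, h2⟩ := hf
  obtain ⟨s, rfl⟩ := Nat.exists_eq_add_of_le hr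
  refine ⟨Fin.append p fun _ => 0, Fin.append g fun _ _ => 0, fun i => ?_, fun z => ?_⟩
  · refine Fin.addCases (fun i => ?_) (fun i => ?_) i
    · rw [Fin.append_left, Fin.append_left]
      exact ⟨(h1 i).1.trans hd, (h1 i).2⟩
    · rw [Fin.append_right, Fin.append_right]
      exact ⟨by simp, differentiable_const _⟩
  · rw [Fin.sum_univ_add, h2]
    simp only [Fin.append_left, Fin.append_right, map_zero, zero_mul, Finset.sum_const_zero,
      add_zero]

/-- polynomials in sums of exponentials -/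
theorem expSum_eval {n : ℕ} (F : MvPolynomial (Fin (n + 1)) ℂ) (r d : ℕ) : ∃ r' d' : ℕ,
    ∀ (k : ℕ) (f : (Fin k → ℂ) → Fin (n + 1) → ℂ), (∀ j, ExpSum k r d fun z => f z j) →
      ExpSum k r' d' fun z => eval (f z) F := by
  induction F using MvPolynomial.induction_on with
  | C c => exact ⟨1, 0, fun k f _ => by simpa only [eval_C] using expSum_const k c⟩
  | add p q hp hq =>
    obtain ⟨r1, d1, h1⟩ := hp
    obtain ⟨r2, d2, h2⟩ := hq
    refine ⟨r1 + r2, max d1 d2, fun k f hf => ?_⟩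
    simpa only [map_add] using ExpSum.add (h1 k f hf) (h2 k f hf)
  | mul_X p i hp =>
    obtain ⟨r1, d1, h1⟩ := hp
    refine ⟨r1 * r, d1 + d, fun k f hf => ?_⟩
    simpa only [map_mul, eval_X] using ExpSum.mul (h1 k f hf) (hf i)

/-- The rational map given by the forms `g` is defined at some point of the image of `f`, and
constant on this image. -/
def InFibre' {n m k : ℕ} (g : Fin (m + 1) → MvPolynomial (Fin (n + 1)) ℂ)
    (f : (Fin k → ℂ) → Fin (n + 1) → ℂ) : Prop :=
  (∃ z i, eval (f z) (g i) ≠ 0) ∧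
    ∀ z w i j, eval (f z) (g i) * eval (f w) (g j) = eval (f z) (g j) * eval (f w) (g i)

theorem eval_aeval' {n m : ℕ} (g : Fin (m + 1) → MvPolynomial (Fin (n + 1)) ℂ)
    (H : MvPolynomial (Fin (m + 1)) ℂ) (x : Fin (n + 1) → ℂ) :
    eval x (aeval g H) = eval (fun i => eval x (g i)) H := by
  have h1 : (eval x).comp (aeval g : MvPolynomial (Fin (m + 1)) ℂ →ₐ[ℂ] _).toRingHom
      = (eval fun i => eval x (g i) : MvPolynomial (Fin (m + 1)) ℂ →+* ℂ) := by
    apply ringHom_ext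
    · intro c
      simp
    · intro j
      simp
  exact congrArg (fun φ : MvPolynomial (Fin (m + 1)) ℂ →+* ℂ => φ H) h1

/-- **Exponential maps lie in the fibres of rational maps.** -/
theorem exp_fibre {n m : ℕ} {I : Ideal (MvPolynomial (Fin (n + 1)) ℂ)} (hI : I.IsPrime)
    {J : Ideal (MvPolynomial (Fin (m + 1)) ℂ)} (hJ : GmThin J 1)
    {g : Fin (m + 1) → MvPolynomial (Fin (n + 1)) ℂ} {δ : ℕ} (hg : DomRat I g δ J)
    (r e : ℕ) :
    ∃ G : MvPolynomial (Fin (n + 1)) ℂ, (∃ m, G.IsHomogeneous m) ∧ G ∉ I ∧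
      ∀ k f, ExpMap k r e I 1 f → (∀ z, eval (f z) G = 0) ∨ InFibre' g f := by
  classical
  obtain ⟨i0, hi0⟩ := hg.ne
  choose R E hRE using fun i => expSum_eval (g i) r e
  obtain ⟨G, ⟨q, hq⟩, hG, hall⟩ := expThin_of_gmThin (isHomogeneous_one _ _) hJ
    (Finset.univ.sup R) (Finset.univ.sup E)
  have hq2 : (aeval g G).IsHomogeneous (δ * q) := by
    have := hq.aeval g fun i => hg.hom i
    exact this
  refine ⟨aeval g G * g i0, ⟨_, hq2.mul (hg.hom i0)⟩, fun h1 => ?_, fun k f hf => ?_⟩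
  · rcases hI.mem_or_mem h1 with h2 | h2
    · exact hG ((hg.im G ⟨q, hq⟩).2 h2)
    · exact hi0 h2
  by_cases h0 : ∀ z, eval (f z) (g i0) = 0
  · left
    intro z
    rw [map_mul, h0, mul_zero]
  push Not at h0
  obtain ⟨z0, hz0⟩ := h0
  by_cases h1 : ∀ z w i j, eval (f z) (g i) * eval (f w) (g j) = eval (f z) (g j) * eval (f w) (g i)
  · exact Or.inr ⟨⟨z0, i0, hz0⟩, h1⟩
  · left
    intro z
    push Not at h1
    obtain ⟨z1, w1, i1, j1, hne⟩ := h1
    have h2 := hall k (fun z i => eval (f z) (g i)) ⟨fun i => ExpSum.mono (hRE i k f hf.exp)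
      (Finset.le_sup (Finset.mem_univ i)) (Finset.le_sup (Finset.mem_univ i)), ?_, ?_, ?_⟩ z
    · rw [map_mul, eval_aeval', h2, zero_mul]
    · intro z F hF hFh
      rw [← eval_aeval']
      obtain ⟨a, ha⟩ := hFh
      exact hf.mem z _ ((hg.im F ⟨a, ha⟩).1 hF) ⟨_, ha.aeval g fun i => hg.hom i⟩
    · intro z
      simp
    · exact ⟨z1, w1, i1, j1, hne⟩

end Pool.Agent.V1153.UR
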