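import Pool.Agent.V1153.UR.Pv
import Pool.Agent.V1153.UR.Sum
import Pool.Agent.V1153.IT.ArT

/-!
Families given by iterated recurrences and rational maps to varieties which are not uniruled.
-/

set_option autoImplicit false

namespace Pool.Agent.V1153.UR

open MvPolynomial Pool.Agent.V1153.UG Pool.Agent.V1153.IT
open Pool.Agent.Y377.ST (IterVec ptsOff)

variable {n m : ℕ}

/-- The images, under the rational map given by the forms `g`, of the points with the homogeneous
coordinates `x(h)` outside of `G = 0`. -/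
def imgOff {H : Type} (g : Fin (m + 1) → MvPolynomial (Fin (n + 1)) ℂ)
    (G : MvPolynomial (Fin (n + 1)) ℂ) (x : H → Fin (n + 1) → ℂ) :
    Set (Projectivization ℂ (Fin (m + 1) → ℂ)) :=
  {P | ∃ (h : H) (h0 : (fun i => eval (x h) (g i)) ≠ 0), eval (x h) G ≠ 0 ∧
    P = Projectivization.mk ℂ _ h0}

/-- **One closed set and one bound for the images.** -/
theorem img_bound {I : Ideal (MvPolynomial (Fin (n + 1)) ℂ)} (hI : I.IsPrime)
    {J : Ideal (MvPolynomial (Fin (m + 1)) ℂ)} (hJ : J.IsPrime) (hthin : GmThin J 1)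
    {g : Fin (m + 1) → MvPolynomial (Fin (n + 1)) ℂ} {δ : ℕ} (hg : DomRat I g δ J)
    (s r e : ℕ) :
    ∃ (G : MvPolynomial (Fin (n + 1)) ℂ) (B : ℕ), (∃ d, G.IsHomogeneous d) ∧ G ∉ I ∧
      (∀ v, eval v G ≠ 0 → (fun i => eval v (g i)) ≠ 0) ∧
      ∀ (H : Type) [Group H] (x : H → Fin (n + 1) → ℂ),
        (∀ h, ∀ F ∈ I, (∃ d, F.IsHomogeneous d) → eval (x h) F = 0) → IterVec s r e x →
          (imgOff g G x).encard ≤ (B : ℕ∞) := by
  classical
  obtain ⟨i0, hi0⟩ := hg.ne
  obtain ⟨e', he'⟩ := iterVec_image g e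
  obtain ⟨G, B, ⟨q, hq⟩, hG, hall⟩ := arith_thin hJ (isHomogeneous_one _ _) hthin s r e'
  have hq2 : (aeval g G).IsHomogeneous (δ * q) := hq.aeval g fun i => hg.hom i
  refine ⟨aeval g G * g i0, B, ⟨_, hq2.mul (hg.hom i0)⟩, fun h1 => ?_, fun v hv h0 => ?_,
    fun H _ x hx hit => ?_⟩
  · rcases hI.mem_or_mem h1 with h2 | h2
    · exact hG ((hg.im G ⟨q, hq⟩).2 h2)
    · exact hi0 h2
  · rw [map_mul] at hv
    exact right_ne_zero_of_mul hv (congrFun h0 i0)
  refine (Set.encard_le_encard ?_).trans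
    (hall H (fun h i => eval (x h) (g i)) (fun h F hF hFh => ?_) ⟨fun h => ?_, ?_⟩)
  · rintro P ⟨h, h0, h1, rfl⟩
    refine ⟨h, h0, ?_, rfl⟩
    rw [map_mul, eval_aeval'] at h1
    have h2 := left_ne_zero_of_mul h1
    rw [← MvPolynomial.coe_aeval_eq_eval] at h2
    exact h2
  · obtain ⟨a, ha⟩ := hFh
    rw [← eval_aeval']
    exact hx h _ ((hg.im F ⟨a, ha⟩).1 hF) ⟨_, ha.aeval g fun i => hg.hom i⟩
  · rw [map_one]
    exact one_ne_zero
  · have h1 := he' s r H x hit
    simp only [map_one, inv_one]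
    exact h1

/-- There is a proper closed subset of the projective variety with the ideal `J` outside of which
there are only finitely many points over each finitely generated field. -/
def PseudoMordellic (J : Ideal (MvPolynomial (Fin (m + 1)) ℂ)) : Prop :=
  ∃ G : MvPolynomial (Fin (m + 1)) ℂ, (∃ d, G.IsHomogeneous d) ∧ G ∉ J ∧ ∀ T : Finset ℂ,
    {P : Projectivization ℂ (Fin (m + 1) → ℂ) | ∃ (v : Fin (m + 1) → ℂ) (h0 : v ≠ 0),
      (∀ j, v j ∈ IntermediateField.adjoin ℚ (T : Set ℂ)) ∧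
      (∀ F ∈ J, (∃ d, F.IsHomogeneous d) → eval v F = 0) ∧ eval v G ≠ 0 ∧
      P = Projectivization.mk ℂ v h0}.Finite

/-- For every `e` there is one proper closed subset of the projective variety with the ideal `J`
outside of which the sequences of points over finitely generated fields with the homogeneous
coordinates `P_j(u ^ h)`, `h ∈ ℤ`, for polynomials `P_j` of degree at most `e` in `u ^ h` and
`u ^ (-h)`, have only finitely many points. -/
def PowersFinite (J : Ideal (MvPolynomial (Fin (m + 1)) ℂ)) : Prop :=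
  ∀ e : ℕ, ∃ G : MvPolynomial (Fin (m + 1)) ℂ, (∃ d, G.IsHomogeneous d) ∧ G ∉ J ∧
    ∀ (T : Finset ℂ) (x : Multiplicative ℤ → Fin (m + 1) → ℂ),
      (∀ h j, x h j ∈ IntermediateField.adjoin ℚ (T : Set ℂ)) →
      (∀ h, ∀ F ∈ J, (∃ d, F.IsHomogeneous d) → eval (x h) F = 0) → IterVec 1 1 e x →
        (ptsOff G x).Finite

theorem PseudoMordellic.powersFinite {J : Ideal (MvPolynomial (Fin (m + 1)) ℂ)}
    (h : PseudoMordellic J) : PowersFinite J := by
  obtain ⟨G, hG, hGJ, hall⟩ := h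
  refine fun e => ⟨G, hG, hGJ, fun T x hxT hx _ => (hall T).subset ?_⟩
  rintro P ⟨h, h0, h1, rfl⟩
  refine ⟨x h, h0, hxT h, hx h, ?_, rfl⟩
  rw [← MvPolynomial.coe_aeval_eq_eval]
  exact h1

theorem PowersFinite.gmThin {J : Ideal (MvPolynomial (Fin (m + 1)) ℂ)} (h : PowersFinite J) :
    GmThin J 1 := by
  classical
  intro N
  obtain ⟨G, hG, hGJ, hall⟩ := h N
  refine ⟨G, hG, hGJ, fun P hP t => ?_⟩
  by_contra ht
  set T : Finset ℂ := Finset.univ.biUnion fun j => (Finset.range (N + 1)).image fun i =>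
    (P j).coeff i with hT
  have hmem : ∀ j i, i < N + 1 → (P j).coeff i ∈ IntermediateField.adjoin ℚ (T : Set ℂ) := by
    intro j i hi
    apply IntermediateField.subset_adjoin
    rw [hT, Finset.mem_coe, Finset.mem_biUnion]
    exact ⟨j, Finset.mem_univ _, Finset.mem_image_of_mem _ (Finset.mem_range.2 hi)⟩
  refine curve_infinite hP ht (hall T _ (fun h j => ?_) (fun h F hF hFh => ?_) ?_)
  · rw [Polynomial.eval_eq_sum_range' (n := N + 1) (by have := hP.deg j; omega)]
    refine sum_mem fun i hi => mul_mem (hmem j i (Finset.mem_range.1 hi)) (pow_mem ?_ _)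
    unfold tw
    have h2 : (2 : ℂ) ∈ IntermediateField.adjoin ℚ (T : Set ℂ) := ofNat_mem _ 2
    exact zpow_mem h2 _
  · rw [← UG.eval_aeval, hP.mem F hF hFh, Polynomial.eval_zero]
  · have h1 := iter_curve (D := 0) le_rfl (isHomogeneous_one _ _) hP
    rw [zero_mul, zero_add] at h1
    obtain ⟨X, Y, hX, hc⟩ := h1.2
    exact ⟨X, Y, hX, fun j => hc j.succ⟩

end Pool.Agent.V1153.UR
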