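import Pool.Agent.V1153.UR.SpQ

/-!
The Bombieri-Lang-Vojta equivalence for recurrent families and exponential maps, uniformly in all
varieties of bounded degree.
-/

set_option autoImplicit false

namespace Pool.Agent.V1153.UR

open MvPolynomial Pool.Agent.V1153.UG Pool.Agent.V1153.IT Pool.Agent.V1153.XS
open Pool.Agent.Y377.ST (IterVec ptsOff)

variable {n : ℕ} {k : Type} [Field k]

/-- All nonconstant maps from the punctured line to the complement of `Q = 0` in the variety with the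
equations `FF`, embedded by `σ`, are contained in `G = 0`. -/
def GmIn (σ : k →+* ℂ) (FF : Set (MvPolynomial (Fin (n + 1)) k))
    (Q G : MvPolynomial (Fin (n + 1)) k) : Prop :=
  ∀ N P, GmBdd (Ideal.span (map σ '' FF)) (map σ Q) N P →
    ∀ t, eval (fun j => (P j).eval t) (map σ G) = 0

/-- All nonconstant entire curves in the complement of `Q = 0` in the variety with the equations
`FF`, embedded by `σ`, are contained in `G = 0`. -/
def EntireIn (σ : k →+* ℂ) (FF : Set (MvPolynomial (Fin (n + 1)) k))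
    (Q G : MvPolynomial (Fin (n + 1)) k) : Prop :=
  ∀ f : ℂ → Fin (n + 1) → ℂ, (∀ j, Differentiable ℂ fun z => f z j) → (∀ z, f z ≠ 0) →
    (∀ F ∈ FF, ∀ z, eval (f z) (map σ F) = 0) → (∀ z, eval (f z) (map σ Q) ≠ 0) →
    (∃ s t i j, f s i * f t j ≠ f s j * f t i) → ∀ z, eval (f z) (map σ G) = 0

/-- Over each ring generated by finitely many algebraic numbers there are only finitely many integral
points outside of `G = 0`. -/
def IntegralFinite (σ : k →+* ℂ) (FF : Set (MvPolynomial (Fin (n + 1)) k))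
    (Q G : MvPolynomial (Fin (n + 1)) k) : Prop :=
  ∀ T : Finset ℂ, (∀ a ∈ T, IsAlgebraic ℚ a) →
    {P : Projectivization ℂ (Fin (n + 1) → ℂ) | ∃ (v : Fin (n + 1) → ℂ) (h0 : v ≠ 0),
      (∀ j, v j ∈ Algebra.adjoin ℤ (T : Set ℂ)) ∧ (∀ F ∈ FF, eval v (map σ F) = 0) ∧
      eval v (map σ Q) ≠ 0 ∧ (eval v (map σ Q))⁻¹ ∈ Algebra.adjoin ℤ (T : Set ℂ) ∧
      eval v (map σ G) ≠ 0 ∧ P = Projectivization.mk ℂ v h0}.Finite

/-- The families of points given by iterated recurrences of type `(s, r, e)` have at most `B s r e`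
points outside of `G = 0`. -/
def FamBoundQ (FF : Set (MvPolynomial (Fin (n + 1)) k)) (Q G : MvPolynomial (Fin (n + 1)) k)
    (B : ℕ → ℕ → ℕ → ℕ) : Prop :=
  ∀ (s r e : ℕ) (L : Type) [Field L] (ι : k →+* L) (_ : L →+* ℂ) (H : Type) [Group H]
    (x : H → Fin (n + 1) → L), (∀ h, ∀ F ∈ FF, eval (x h) (map ι F) = 0) →
      IterOff s r e (map ι Q) x → (ptsOff (map ι G) x).encard ≤ (B s r e : ℕ∞)

/-- The sequences of integral points over rings generated by finitely many algebraic numbers, given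
by polynomials in the powers `u ^ h`, `h ∈ ℤ`, have finitely many points outside of `G = 0`. -/
def PowersIn (σ : k →+* ℂ) (FF : Set (MvPolynomial (Fin (n + 1)) k))
    (Q G : MvPolynomial (Fin (n + 1)) k) : Prop :=
  ∀ (e : ℕ) (T : Finset ℂ), (∀ a ∈ T, IsAlgebraic ℚ a) →
    ∀ x : Multiplicative ℤ → Fin (n + 1) → ℂ, (∀ h j, x h j ∈ Algebra.adjoin ℤ (T : Set ℂ)) →
      (∀ h, (eval (x h) (map σ Q))⁻¹ ∈ Algebra.adjoin ℤ (T : Set ℂ)) →
      (∀ h, ∀ F ∈ FF, eval (x h) (map σ F) = 0) → IterOff 1 1 e (map σ Q) x →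
        (ptsOff (map σ G) x).Finite

/-- The maps from all affine spaces given by sums of `r` products of a polynomial of degree at most
`e` and the exponential of an entire function are, for all `r` and `e`, constant or contained in
`G = 0`. -/
def ExpMapsIn (σ : k →+* ℂ) (FF : Set (MvPolynomial (Fin (n + 1)) k))
    (Q G : MvPolynomial (Fin (n + 1)) k) : Prop :=
  ∀ (m r e : ℕ) (f : (Fin m → ℂ) → Fin (n + 1) → ℂ),
    ExpMap m r e (Ideal.span (map σ '' FF)) (map σ Q) f → ∀ z, eval (f z) (map σ G) = 0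

theorem expMapsIn_of_gm {σ : k →+* ℂ} {FF : Set (MvPolynomial (Fin (n + 1)) k)}
    {Q G : MvPolynomial (Fin (n + 1)) k} {q γ : ℕ} (hQ : Q.IsHomogeneous q)
    (hG : G.IsHomogeneous γ) (h : GmIn σ FF Q G) : ExpMapsIn σ FF Q G := by
  intro m r e f hf z
  obtain ⟨N, hN⟩ := exp_point (Ideal.span (map σ '' FF)) (hQ.map σ) r e
  have h1 : ∀ x, f x ≠ 0 → eval (f x) (map σ G) = 0 := by
    intro x hx
    obtain ⟨P, hP, hP1⟩ := hN m f hf x hx
    rw [← hP1]
    exact h N P hP 1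
  by_cases hz : f z = 0
  · obtain ⟨z', w, j, l, hne⟩ := hf.nc
    obtain ⟨x, hx⟩ : ∃ x, f x ≠ 0 := by
      by_contra h0
      push Not at h0
      apply hne
      rw [h0 z', h0 w]
      rfl
    have h3 := eval_homog (hG.map σ) 0 (f x)
    rw [h1 x hx, mul_zero] at h3
    rw [hz]
    have h4 : (0 : Fin (n + 1) → ℂ) = fun j => 0 * f x j := by
      funext j
      rw [zero_mul]
      rfl
    rw [h4]
    exact h3
  · exact h1 z hz

/-- the entire curve of a curve of the punctured line -/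
theorem gm_exp {σ : k →+* ℂ} {FF : Set (MvPolynomial (Fin (n + 1)) k)}
    {Q G : MvPolynomial (Fin (n + 1)) k} {q γ : ℕ} (hQ : Q.IsHomogeneous q)
    (hG : G.IsHomogeneous γ)
    (h : ∀ P' : Fin (n + 1) → Polynomial ℂ, Prim (Ideal.span (map σ '' FF)) (map σ Q) P' →
      ∀ z, eval (fun j => (P' j).eval (Complex.exp z)) (map σ G) = 0) : GmIn σ FF Q G := by
  intro N P hP t
  obtain ⟨g, P', -, hPP, hpr⟩ := hP.prim (hQ.map σ)
  refine vanish_P hPP (hG.map σ) (fun t ht => ?_) t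
  have h1 := h P' hpr (Complex.log t)
  rwa [Complex.exp_log ht] at h1

theorem gm_of_entire {σ : k →+* ℂ} {FF : Set (MvPolynomial (Fin (n + 1)) k)}
    (hom : ∀ F ∈ FF, ∃ a, F.IsHomogeneous a)
    {Q G : MvPolynomial (Fin (n + 1)) k} {q γ : ℕ} (hQ : Q.IsHomogeneous q)
    (hG : G.IsHomogeneous γ) (h : EntireIn σ FF Q G) : GmIn σ FF Q G := by
  refine gm_exp hQ hG fun P' hpr z => ?_
  refine h (fun z j => (P' j).eval (Complex.exp z)) (fun j =>
    (P' j).differentiable.comp Complex.differentiable_exp) (fun z h0 => ?_) (fun F hF z => ?_)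
    (fun z => hpr.off _ (Complex.exp_ne_zero z)) ?_ z
  · obtain ⟨j, hj⟩ := hpr.ne (Complex.exp z)
    exact hj (congrFun h0 j)
  · obtain ⟨a, ha⟩ := hom F hF
    exact hpr.mem _ (map σ F) (Ideal.subset_span ⟨F, hF, rfl⟩) ⟨a, ha.map σ⟩
  · obtain ⟨s, t, j, l, hs, ht, hst⟩ := hpr.nc
    refine ⟨Complex.log s, Complex.log t, j, l, ?_⟩
    simp only [Complex.exp_log ht, Complex.exp_log hs]
    exact hst

theorem gm_of_expMapsIn {σ : k →+* ℂ} {FF : Set (MvPolynomial (Fin (n + 1)) k)}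
    {Q G : MvPolynomial (Fin (n + 1)) k} {q γ : ℕ} (hQ : Q.IsHomogeneous q)
    (hG : G.IsHomogeneous γ) (h : ExpMapsIn σ FF Q G) : GmIn σ FF Q G := by
  refine gm_exp hQ hG fun P' hpr z => ?_
  set N := Finset.univ.sup fun j => (P' j).natDegree with hN
  refine h 1 (N + 1) 0 (fun z j => (P' j).eval (Complex.exp (z 0))) ⟨fun j => ?_,
    fun z => hpr.mem _, fun z => hpr.off _ (Complex.exp_ne_zero _), ?_⟩ (fun _ => z)
  · refine ⟨fun i => C ((P' j).coeff i), fun i z => (i : ℕ) * z 0, fun i => ⟨by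
      rw [totalDegree_C], (differentiable_apply 0).const_mul _⟩, fun z => ?_⟩
    have hdeg : (P' j).natDegree < N + 1 := Nat.lt_succ_of_le
      (Finset.le_sup (f := fun j => (P' j).natDegree) (Finset.mem_univ j))
    change (P' j).eval (Complex.exp (z 0)) = _
    rw [Polynomial.eval_eq_sum_range' hdeg,
      ← Fin.sum_univ_eq_sum_range (fun i => (P' j).coeff i * Complex.exp (z 0) ^ i)]
    refine Finset.sum_congr rfl fun i _ => ?_
    rw [eval_C, ← Complex.exp_nat_mul]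
  · obtain ⟨s, t, j, l, hs, ht, hst⟩ := hpr.nc
    refine ⟨fun _ => Complex.log s, fun _ => Complex.log t, j, l, ?_⟩
    simp only [Complex.exp_log ht, Complex.exp_log hs]
    exact hst

theorem powersIn_of_integral {σ : k →+* ℂ} {FF : Set (MvPolynomial (Fin (n + 1)) k)}
    {Q G : MvPolynomial (Fin (n + 1)) k} (h : IntegralFinite σ FF Q G) : PowersIn σ FF Q G := by
  intro e T hT x hxT hxQ hx hit
  refine (h T hT).subset ?_
  rintro P ⟨h, h0, h1, rfl⟩
  refine ⟨x h, h0, hxT h, hx h, hit.1 h, hxQ h, ?_, rfl⟩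
  rw [← MvPolynomial.coe_aeval_eq_eval]
  exact h1

theorem powersIn_of_fam {σ : k →+* ℂ} {FF : Set (MvPolynomial (Fin (n + 1)) k)}
    {Q G : MvPolynomial (Fin (n + 1)) k} {B : ℕ → ℕ → ℕ → ℕ} (h : FamBoundQ FF Q G B) :
    PowersIn σ FF Q G := fun e _ _ x _ _ hx hit =>
  Set.finite_of_encard_le_coe (h 1 1 e ℂ σ (RingHom.id ℂ) _ x hx hit)

section number

variable [NumberField k]

/-- a curve of the punctured line over a number field, not contained in `G = 0` -/
def NumCurveQ (FF : Set (MvPolynomial (Fin (n + 1)) k)) (Q G : MvPolynomial (Fin (n + 1)) k) :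
    Prop :=
  ∃ (K : Type) (_ : Field K) (_ : NumberField K) (ι : k →+* K) (p : Fin (n + 1) → Polynomial K),
    (∀ F ∈ FF, eval₂ (Polynomial.C.comp ι) p F = 0) ∧
    (∃ (c : K) (κ : ℕ), c ≠ 0 ∧
      eval₂ (Polynomial.C.comp ι) p Q = Polynomial.C c * Polynomial.X ^ κ) ∧
    (∃ j l, Polynomial.derivative (p j) * p l ≠ p j * Polynomial.derivative (p l)) ∧
    eval₂ (Polynomial.C.comp ι) p G ≠ 0

omit [NumberField k] in
theorem eval₂_map_poly {σ : k →+* ℂ} {K : Type} [Field K] {ι : k →+* K} {τ : K →+* ℂ}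
    (hτ : τ.comp ι = σ) (p : Fin (n + 1) → Polynomial K) (F : MvPolynomial (Fin (n + 1)) k) :
    aeval (fun j => (p j).map τ) (map σ F) =
      (eval₂ (Polynomial.C.comp ι) p F).map τ := by
  have h4 := MvPolynomial.hom_eval₂ F (Polynomial.C.comp ι) (Polynomial.mapRingHom τ) p
  have h5 : (Polynomial.mapRingHom τ).comp (Polynomial.C.comp ι) = Polynomial.C.comp σ := by
    rw [← hτ]
    refine RingHom.ext fun x => ?_
    simp
  rw [h5] at h4
  rw [← Polynomial.coe_mapRingHom, h4, aeval_def, eval₂_map]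
  rfl

theorem numCurveQ_of {σ : k →+* ℂ} {FF : Set (MvPolynomial (Fin (n + 1)) k)}
    (hom : ∀ F ∈ FF, ∃ a, F.IsHomogeneous a)
    {Q G : MvPolynomial (Fin (n + 1)) k} (h : ¬ GmIn σ FF Q G) : NumCurveQ FF Q G := by
  unfold GmIn at h
  push Not at h
  obtain ⟨N, P, hP, t, ht⟩ := h
  let _ : Algebra k ℂ := σ.toAlgebra
  have hev : ∀ F : MvPolynomial (Fin (n + 1)) k, aeval P F = aeval P (map σ F) := by
    intro F
    rw [aeval_def, aeval_def, eval₂_map]
    rfl
  obtain ⟨c, κ, hc, hκ⟩ := hP.off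
  obtain ⟨K, iK, iN, iA, p, -, h1, ⟨c', κ', hc', hκ'⟩, h3, h4⟩ := special_nf (k' := k) (M := ℂ)
    (P := P) (Q := Q) (G' := G) (S := FF) (fun F hF => by
      obtain ⟨a, ha⟩ := hom F hF
      rw [hev]
      exact hP.mem (map σ F) (Ideal.subset_span ⟨F, hF, rfl⟩) ⟨a, ha.map σ⟩)
    ⟨c, κ, hc, by rw [hev]; exact hκ⟩ (wr_of_nc hP.nc) (fun h0 => ht (by
      rw [← UG.eval_aeval, ← hev, h0, Polynomial.eval_zero]))
  exact ⟨K, iK, iN, algebraMap k K, p, h1, ⟨c', κ', hc', hκ'⟩, h3, h4⟩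

omit [NumberField k] in
/-- a curve over a number field gives a curve over the complex numbers -/
theorem gm_of_num {σ : k →+* ℂ} {FF : Set (MvPolynomial (Fin (n + 1)) k)}
    {Q G : MvPolynomial (Fin (n + 1)) k} {K : Type} [Field K] {ι : k →+* K}
    {p : Fin (n + 1) → Polynomial K} (h1 : ∀ F ∈ FF, eval₂ (Polynomial.C.comp ι) p F = 0)
    {c : K} {κ : ℕ} (hc : c ≠ 0)
    (hκ : eval₂ (Polynomial.C.comp ι) p Q = Polynomial.C c * Polynomial.X ^ κ)
    (h3 : ∃ j l, Polynomial.derivative (p j) * p l ≠ p j * Polynomial.derivative (p l))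
    (h4 : eval₂ (Polynomial.C.comp ι) p G ≠ 0) {τ : K →+* ℂ} (hτ : τ.comp ι = σ) :
    ∃ N, GmBdd (Ideal.span (map σ '' FF)) (map σ Q) N (fun j => (p j).map τ) ∧
      (∃ t, eval (fun j => ((p j).map τ).eval t) (map σ G) ≠ 0) := by
  have hinj : Function.Injective (Polynomial.map τ) := Polynomial.map_injective _ τ.injective
  refine ⟨Finset.univ.sup fun j => ((p j).map τ).natDegree, ⟨fun j =>
    Finset.le_sup (f := fun j => ((p j).map τ).natDegree) (Finset.mem_univ j), fun F hF _ => ?_,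
    ⟨τ c, κ, (map_ne_zero τ).2 hc, ?_⟩, nc_of_wr ?_⟩, ?_⟩
  · apply Polynomial.funext
    intro t
    rw [UG.eval_aeval, Polynomial.eval_zero]
    refine eval_span (fun F hF => ?_) F hF
    rw [← UG.eval_aeval, eval₂_map_poly hτ, h1 F hF, Polynomial.map_zero, Polynomial.eval_zero]
  · rw [eval₂_map_poly hτ, hκ, Polynomial.map_mul, Polynomial.map_pow, Polynomial.map_X,
      Polynomial.map_C]
  · obtain ⟨j, l, hjl⟩ := h3
    refine ⟨j, l, fun h5 => hjl (hinj ?_)⟩
    rw [Polynomial.map_mul, Polynomial.map_mul, ← Polynomial.derivative_map,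
      ← Polynomial.derivative_map]
    exact h5
  · by_contra hcon
    push Not at hcon
    apply h4
    apply hinj
    rw [← eval₂_map_poly hτ, Polynomial.map_zero]
    apply Polynomial.funext
    intro t
    rw [UG.eval_aeval, Polynomial.eval_zero]
    exact hcon t

/-- families -/
theorem fam_boundQ (n D : ℕ) : ∃ B : ℕ → ℕ → ℕ → ℕ, ∀ (k : Type) [Field k] [NumberField k]
    (σ : k →+* ℂ) (FF : Set (MvPolynomial (Fin (n + 1)) k)) (Q G : MvPolynomial (Fin (n + 1)) k),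
    (∀ F ∈ FF, ∃ a ≤ D, F.IsHomogeneous a) → (∃ a ≤ D, Q.IsHomogeneous a) →
    (∃ a ≤ D, G.IsHomogeneous a) → GmIn σ FF Q G → FamBoundQ FF Q G B := by
  choose B hB using fun s r e => arith_family n D s r e
  refine ⟨B, fun k _ _ σ FF Q G hFF hQ hG hR s r e L _ ι τ H _ x hx hit => ?_⟩
  have hR' : GmIn (τ.comp ι) FF Q G := by
    by_contra hcon
    obtain ⟨K, iK, iN, ι', p, h1, ⟨c, κ, hc, hκ⟩, h3, h4⟩ := numCurveQ_of (fun F hF => by
      obtain ⟨a, -, ha⟩ := hFF F hF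
      exact ⟨a, ha⟩) hcon
    obtain ⟨τ', hτ'⟩ := ext_emb σ ι'
    obtain ⟨N, h5, t, h6⟩ := gm_of_num h1 hc hκ h3 h4 hτ'
    exact h6 (hR N _ h5 t)
  have hmm : map τ '' (map ι '' FF) = map (τ.comp ι) '' FF := by
    rw [Set.image_image]
    simp only [map_map]
  obtain ⟨q, hq, hQ⟩ := hQ
  obtain ⟨γ, hγ, hG⟩ := hG
  refine hB s r e L τ (map ι '' FF) (map ι Q) (map ι G) ?_ ⟨q, hq, hQ.map ι⟩ ⟨γ, hγ, hG.map ι⟩ ?_
    H x ?_ hit
  · rintro _ ⟨F, hF, rfl⟩
    obtain ⟨a, ha, hFa⟩ := hFF F hF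
    exact ⟨a, ha, hFa.map ι⟩
  · rw [hmm, map_map, map_map]
    exact fun P hP => hR' _ P hP
  · rintro h _ ⟨F, hF, rfl⟩
    exact hx h F hF

theorem gm_of_powers {σ : k →+* ℂ} {FF : Set (MvPolynomial (Fin (n + 1)) k)}
    (hom : ∀ F ∈ FF, ∃ a, F.IsHomogeneous a)
    {Q G : MvPolynomial (Fin (n + 1)) k} {q : ℕ} (hQ : Q.IsHomogeneous q)
    (h : PowersIn σ FF Q G) : GmIn σ FF Q G := by
  classical
  by_contra hcon
  obtain ⟨K, iK, iN, ι, p, h1, ⟨c, κ, hc, hκ⟩, h3, h4⟩ := numCurveQ_of hom hcon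
  obtain ⟨τ, hτ⟩ := ext_emb σ ι
  obtain ⟨N, hN, t, ht⟩ := gm_of_num h1 hc hκ h3 h4 hτ
  have hQe : ∀ u : ℂ, eval (fun j => ((p j).map τ).eval u) (map σ Q) = τ c * u ^ κ := by
    intro u
    rw [← UG.eval_aeval, eval₂_map_poly hτ, hκ, Polynomial.map_mul, Polynomial.map_pow,
      Polynomial.map_X, Polynomial.map_C, Polynomial.eval_mul, Polynomial.eval_C,
      Polynomial.eval_pow, Polynomial.eval_X]
  set T : Finset ℂ := insert (1 / 2 : ℂ) (insert (τ c)⁻¹
    (Finset.univ.biUnion fun j => (Finset.range (N + 1)).image fun i => ((p j).map τ).coeff i))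
    with hT
  have halg : ∀ a ∈ T, IsAlgebraic ℚ a := by
    have h0 : ∀ a : K, IsAlgebraic ℚ (τ a) := by
      intro a
      have h5 : IsAlgebraic ℚ a := Algebra.IsAlgebraic.isAlgebraic a
      exact h5.algHom τ.toRatAlgHom
    intro a ha
    rw [hT, Finset.mem_insert, Finset.mem_insert, Finset.mem_biUnion] at ha
    rcases ha with rfl | rfl | ⟨j, -, ha⟩
    · have := h0 (1 / 2)
      rwa [map_div₀, map_one, map_ofNat] at this
    · exact (h0 c).inv
    · obtain ⟨i, -, rfl⟩ := Finset.mem_image.1 ha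
      change IsAlgebraic ℚ (((p j).map τ).coeff i)
      rw [Polynomial.coeff_map]
      exact h0 _
  have hmem : ∀ j i, i < N + 1 → ((p j).map τ).coeff i ∈ Algebra.adjoin ℤ (T : Set ℂ) := by
    intro j i hi
    apply Algebra.subset_adjoin
    rw [hT, Finset.mem_coe, Finset.mem_insert, Finset.mem_insert, Finset.mem_biUnion]
    exact Or.inr (Or.inr ⟨j, Finset.mem_univ _, Finset.mem_image_of_mem _ (Finset.mem_range.2 hi)⟩)
  have hhalf : (1 / 2 : ℂ) ∈ Algebra.adjoin ℤ (T : Set ℂ) := by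
    apply Algebra.subset_adjoin
    rw [hT, Finset.mem_coe]
    exact Finset.mem_insert_self _ _
  have hcinv : (τ c)⁻¹ ∈ Algebra.adjoin ℤ (T : Set ℂ) := by
    apply Algebra.subset_adjoin
    rw [hT, Finset.mem_coe]
    exact Finset.mem_insert_of_mem (Finset.mem_insert_self _ _)
  have htwo : (2 : ℂ) ∈ Algebra.adjoin ℤ (T : Set ℂ) := ofNat_mem _ 2
  have htw : ∀ a : ℤ, (2 : ℂ) ^ a ∈ Algebra.adjoin ℤ (T : Set ℂ) := by
    intro a
    rcases Int.eq_nat_or_neg a with ⟨b, rfl | rfl⟩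
    · rw [zpow_natCast]
      exact pow_mem htwo b
    · rw [zpow_neg, zpow_natCast, ← inv_pow, ← one_div]
      exact pow_mem hhalf b
  refine curve_infinite hN ht (h (q * N + N) T halg _ (fun h j => ?_) (fun h => ?_)
    (fun h F hF => ?_) (iter_curve (D := q) le_rfl (hQ.map σ) hN))
  · rw [Polynomial.eval_eq_sum_range' (n := N + 1) (by have := hN.deg j; omega)]
    exact sum_mem fun i hi => mul_mem (hmem j i (Finset.mem_range.1 hi)) (pow_mem (htw _) _)
  · rw [hQe, mul_inv]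
    refine mul_mem hcinv ?_
    unfold tw
    rw [← inv_pow, ← zpow_neg]
    exact pow_mem (htw _) _
  · rw [← UG.eval_aeval, eval₂_map_poly hτ, h1 F hF, Polynomial.map_zero, Polynomial.eval_zero]

end number

end Pool.Agent.V1153.UR
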