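import Pool.Agent.V1153.UR.LogB
import Pool.Agent.V1153.UR.Blv
import Pool.Agent.V1153.UG.UnfC
import Pool.Agent.V1153.UG.DFQ

/-!
Equivalent properties of quasi-projective varieties without curves of the punctured line.
-/

set_option autoImplicit false

namespace Pool.Agent.V1153.UR

open MvPolynomial Pool.Agent.V1153.UG Pool.Agent.V1153.IT Pool.Agent.V1153.XS
open Pool.Agent.Y377.ST (IterVec ptsOff)

variable {n : ℕ}

/-- There are no nonconstant maps from the punctured line to the complement of `Q = 0` in the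
projective variety with the equations `E`. -/
def NoGm (E : Set (MvPolynomial (Fin (n + 1)) ℂ)) (Q : MvPolynomial (Fin (n + 1)) ℂ) : Prop :=
  ∀ N P, ¬ GmBdd (Ideal.span E) Q N P

/-- No integral closed subvariety of the complement of `Q = 0` in the projective variety with the
equations `E` is covered by curves of the punctured line. -/
def NoRuledSub (E : Set (MvPolynomial (Fin (n + 1)) ℂ)) (Q : MvPolynomial (Fin (n + 1)) ℂ) : Prop :=
  ∀ I : Ideal (MvPolynomial (Fin (n + 1)) ℂ), I.IsPrime → Ideal.span E ≤ I → Q ∉ I →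
    ¬ GmRuled I Q

/-- For every point `x` there are, up to common factors, only finitely many nonconstant maps from the
punctured line to the complement of `Q = 0` in the projective variety with the equations `E` which
send `1` to `x`. -/
def PtdFinite (E : Set (MvPolynomial (Fin (n + 1)) ℂ)) (Q : MvPolynomial (Fin (n + 1)) ℂ) : Prop :=
  ∀ x : Fin (n + 1) → ℂ, x ≠ 0 → ∃ S : Finset (Fin (n + 1) → Polynomial ℂ), (∀ P ∈ S, P ≠ 0) ∧
    ∀ N P, GmBdd (Ideal.span E) Q N P → (fun j => (P j).eval 1) ≠ 0 →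
      (∀ j l, (P j).eval 1 * x l = (P l).eval 1 * x j) →
        ∃ P' ∈ S, ∀ j l, P j * P' l = P l * P' j

theorem cone_ruled {E : Set (MvPolynomial (Fin (n + 1)) ℂ)} (hE : ∀ F ∈ E, ∃ a, F.IsHomogeneous a)
    {Q : MvPolynomial (Fin (n + 1)) ℂ} {q : ℕ} (hQ : Q.IsHomogeneous q) {N : ℕ}
    {P : Fin (n + 1) → Polynomial ℂ} (hP : GmBdd (Ideal.span E) Q N P) :
    ∃ I : Ideal (MvPolynomial (Fin (n + 1)) ℂ), I.IsPrime ∧ Ideal.span E ≤ I ∧ Q ∉ I ∧
      GmRuled I Q := by
  obtain ⟨c, κ, hc, hκ⟩ := hP.off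
  have hIm : ∀ F : MvPolynomial (Fin (n + 1)) ℂ, (∃ d, F.IsHomogeneous d) →
      (F ∈ RingHom.ker (cone P) ↔ aeval P F = 0) := by
    rintro F ⟨d, hd⟩
    rw [RingHom.mem_ker]
    exact cone_zero_iff hd
  refine ⟨RingHom.ker (cone P), RingHom.ker_isPrime _, ?_, ?_, ℂ, inferInstance, inferInstance, P,
    fun F hF hFh => (hIm F hFh).1 hF, ⟨c, κ, hc, hκ⟩, fun G hG hGI h0 => hGI ((hIm G hG).2 h0),
    wr_of_nc hP.nc⟩
  · rw [Ideal.span_le]
    intro F hF
    exact (hIm F (hE F hF)).2 (hP.mem F (Ideal.subset_span hF) (hE F hF))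
  · rw [hIm Q ⟨q, hQ⟩, hκ]
    exact mul_ne_zero (Polynomial.C_ne_zero.2 hc) (pow_ne_zero _ Polynomial.X_ne_zero)

theorem noRuledSub_iff {E : Set (MvPolynomial (Fin (n + 1)) ℂ)}
    (hE : ∀ F ∈ E, ∃ a, F.IsHomogeneous a)
    {Q : MvPolynomial (Fin (n + 1)) ℂ} {q : ℕ} (hQ : Q.IsHomogeneous q) :
    NoGm E Q ↔ NoRuledSub E Q := by
  constructor
  · intro h I hI hEI hQI
    refine not_ruled_of_thin fun N => ⟨1, ⟨0, isHomogeneous_one _ _⟩, fun h1 =>
      hI.ne_top ((Ideal.eq_top_iff_one I).2 h1), fun P hP => absurd ?_ (h N P)⟩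
    exact ⟨hP.deg, fun F hF hFh => hP.mem F (hEI hF) hFh, hP.off, hP.nc⟩
  · intro h N P hP
    obtain ⟨I, h1, h2, h3, h4⟩ := cone_ruled hE hQ hP
    exact h I h1 h2 h3 h4

/-- composition with powers -/
theorem gm_pow {E : Set (MvPolynomial (Fin (n + 1)) ℂ)}
    {Q : MvPolynomial (Fin (n + 1)) ℂ} {N : ℕ}
    {P : Fin (n + 1) → Polynomial ℂ} (hP : GmBdd (Ideal.span E) Q N P) {k : ℕ} (hk : 0 < k) :
    GmBdd (Ideal.span E) Q (N * k) fun j => (P j).comp (Polynomial.X ^ k) := by
  obtain ⟨c, κ, hc, hκ⟩ := hP.off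
  have hev : ∀ (F : MvPolynomial (Fin (n + 1)) ℂ),
      aeval (fun j => (P j).comp (Polynomial.X ^ k)) F = (aeval P F).comp (Polynomial.X ^ k) := by
    intro F
    apply Polynomial.funext
    intro t
    rw [UG.eval_aeval, Polynomial.eval_comp, UG.eval_aeval]
    simp only [Polynomial.eval_comp]
  refine ⟨fun j => ?_, fun F hF hFh => ?_, ⟨c, k * κ, hc, ?_⟩, ?_⟩
  · refine Polynomial.natDegree_comp_le.trans ?_
    rw [Polynomial.natDegree_X_pow]
    exact Nat.mul_le_mul_right k (hP.deg j)
  · rw [hev, hP.mem F hF hFh, Polynomial.zero_comp]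
  · rw [hev, hκ, Polynomial.mul_comp, Polynomial.C_comp, Polynomial.pow_comp, Polynomial.X_comp,
      ← pow_mul]
  · obtain ⟨s, t, j, l, hst⟩ := hP.nc
    obtain ⟨s', hs'⟩ := IsAlgClosed.exists_pow_nat_eq s hk
    obtain ⟨t', ht'⟩ := IsAlgClosed.exists_pow_nat_eq t hk
    refine ⟨s', t', j, l, ?_⟩
    simp only [Polynomial.eval_comp, Polynomial.eval_pow, Polynomial.eval_X, hs', ht']
    exact hst

/-- a curve which is equal to a reparametrisation by powers is constant -/
theorem const_of_powers {P : Fin (n + 1) → Polynomial ℂ} (hne : ∀ a, ∃ j, (P j).eval a ≠ 0)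
    {k l : ℕ} (hk : 0 < k) (hkl : k < l)
    (h : ∀ t : ℂ, ∀ i j, (P i).eval (t ^ k) * (P j).eval (t ^ l) =
      (P j).eval (t ^ k) * (P i).eval (t ^ l)) :
    ∀ s t i j, (P i).eval s * (P j).eval t = (P j).eval s * (P i).eval t := by
  classical
  set N := Finset.univ.sup fun j => (P j).natDegree with hN
  let ex : ℕ → ℕ := fun b => k ^ (N - b) * l ^ b
  let x : ℕ → ℂ := fun b => (2 : ℂ) ^ ex b
  have hex : ∀ b, b < N → ex b < ex (b + 1) := by
    intro b hb
    change k ^ (N - b) * l ^ b < k ^ (N - (b + 1)) * l ^ (b + 1)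
    obtain ⟨c, hc⟩ : ∃ c, N - b = c + 1 := ⟨N - b - 1, by omega⟩
    have hc2 : N - (b + 1) = c := by omega
    rw [hc, hc2, pow_succ, pow_succ]
    have h1 : 0 < k ^ c * l ^ b := Nat.mul_pos (pow_pos hk _) (pow_pos (hk.trans hkl) _)
    calc k ^ c * k * l ^ b = (k ^ c * l ^ b) * k := by ring
      _ < (k ^ c * l ^ b) * l := Nat.mul_lt_mul_of_pos_left hkl h1
      _ = k ^ c * (l ^ b * l) := by ring
  have hexm : ∀ b c, b < c → c ≤ N → ex b < ex c := by
    intro b c hbc
    induction c, hbc using Nat.le_induction with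
    | base => exact fun h => hex b h
    | succ c hc ih => exact fun h => (ih (by omega)).trans (hex c (by omega))
  have hinj : Set.InjOn x (Finset.range (N + 1)) := by
    intro b hb c hc hbc
    have hb' : b ≤ N := by have := Finset.mem_range.1 (Finset.mem_coe.1 hb); omega
    have hc' : c ≤ N := by have := Finset.mem_range.1 (Finset.mem_coe.1 hc); omega
    have h1 : ex b = ex c := by
      have h2 : ((2 : ℝ) : ℂ) ^ ex b = ((2 : ℝ) : ℂ) ^ ex c := by
        push_cast
        exact hbc
      have h3 : (2 : ℝ) ^ ex b = (2 : ℝ) ^ ex c := by exact_mod_cast h2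
      exact pow_right_injective₀ two_pos (by norm_num) h3
    rcases lt_trichotomy b c with h2 | h2 | h2
    · exact absurd h1 (hexm b c h2 hc').ne
    · exact h2
    · exact absurd h1.symm (hexm c b h2 hb').ne
  -- the values are parallel
  have hpar : ∀ b, b ≤ N → ∀ i j, (P i).eval (x 0) * (P j).eval (x b) =
      (P j).eval (x 0) * (P i).eval (x b) := by
    intro b
    induction b with
    | zero => intro _ i j; ring
    | succ b ih =>
      intro hb i j
      have h1 := ih (by omega)
      have h2 : ∀ i j, (P i).eval (x b) * (P j).eval (x (b + 1)) =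
          (P j).eval (x b) * (P i).eval (x (b + 1)) := by
        intro i j
        have h3 := h ((2 : ℂ) ^ (k ^ (N - (b + 1)) * l ^ b)) i j
        have e1 : ((2 : ℂ) ^ (k ^ (N - (b + 1)) * l ^ b)) ^ k = x b := by
          change _ = (2 : ℂ) ^ (k ^ (N - b) * l ^ b)
          rw [← pow_mul]
          congr 1
          obtain ⟨c, hc⟩ : ∃ c, N - b = c + 1 := ⟨N - b - 1, by omega⟩
          have hc2 : N - (b + 1) = c := by omega
          rw [hc, hc2, pow_succ]
          ring
        have e2 : ((2 : ℂ) ^ (k ^ (N - (b + 1)) * l ^ b)) ^ l = x (b + 1) := by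
          change _ = (2 : ℂ) ^ (k ^ (N - (b + 1)) * l ^ (b + 1))
          rw [← pow_mul]
          congr 1
          rw [pow_succ]
          ring
        rw [e1, e2] at h3
        exact h3
      obtain ⟨m, hm⟩ := hne (x b)
      apply mul_right_cancel₀ hm
      calc (P i).eval (x 0) * (P j).eval (x (b + 1)) * (P m).eval (x b)
          = (P i).eval (x 0) * ((P m).eval (x b) * (P j).eval (x (b + 1))) := by ring
        _ = (P i).eval (x 0) * ((P j).eval (x b) * (P m).eval (x (b + 1))) := by rw [h2 m j]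
        _ = ((P i).eval (x 0) * (P j).eval (x b)) * (P m).eval (x (b + 1)) := by ring
        _ = ((P j).eval (x 0) * (P i).eval (x b)) * (P m).eval (x (b + 1)) := by rw [h1 i j]
        _ = (P j).eval (x 0) * ((P i).eval (x b) * (P m).eval (x (b + 1))) := by ring
        _ = (P j).eval (x 0) * ((P m).eval (x b) * (P i).eval (x (b + 1))) := by rw [h2 i m]
        _ = (P j).eval (x 0) * (P i).eval (x (b + 1)) * (P m).eval (x b) := by ring
  -- the curve is constant
  have hzero : ∀ i j, P j * Polynomial.C ((P i).eval (x 0)) -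
      P i * Polynomial.C ((P j).eval (x 0)) = 0 := by
    intro i j
    by_contra hR
    set R := P j * Polynomial.C ((P i).eval (x 0)) - P i * Polynomial.C ((P j).eval (x 0)) with hRd
    have h1 : (Finset.range (N + 1)).image x ⊆ R.roots.toFinset := by
      intro y hy
      obtain ⟨b, hb, rfl⟩ := Finset.mem_image.1 hy
      rw [Multiset.mem_toFinset, Polynomial.mem_roots hR, Polynomial.IsRoot, hRd,
        Polynomial.eval_sub, Polynomial.eval_mul, Polynomial.eval_mul, Polynomial.eval_C,
        Polynomial.eval_C]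
      have h2 := hpar b (by have := Finset.mem_range.1 hb; omega) i j
      linear_combination h2
    have h2 : N + 1 ≤ R.natDegree := by
      calc N + 1 = ((Finset.range (N + 1)).image x).card := by
            rw [Finset.card_image_of_injOn hinj, Finset.card_range]
        _ ≤ R.roots.toFinset.card := Finset.card_le_card h1
        _ ≤ Multiset.card R.roots := Multiset.toFinset_card_le _
        _ ≤ R.natDegree := R.card_roots'
    have h3 : R.natDegree ≤ N := by
      refine (Polynomial.natDegree_sub_le _ _).trans (max_le ?_ ?_)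
      · refine (Polynomial.natDegree_mul_C_le _ _).trans ?_
        exact Finset.le_sup (f := fun j => (P j).natDegree) (Finset.mem_univ j)
      · refine (Polynomial.natDegree_mul_C_le _ _).trans ?_
        exact Finset.le_sup (f := fun j => (P j).natDegree) (Finset.mem_univ i)
    omega
  obtain ⟨m, hm⟩ := hne (x 0)
  have key : ∀ s i, (P i).eval s * (P m).eval (x 0) = (P m).eval s * (P i).eval (x 0) := by
    intro s i
    have h1 := congrArg (Polynomial.eval s) (hzero m i)
    rw [Polynomial.eval_sub, Polynomial.eval_mul, Polynomial.eval_mul, Polynomial.eval_C,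
      Polynomial.eval_C, Polynomial.eval_zero, sub_eq_zero] at h1
    exact h1
  intro s t i j
  apply mul_right_cancel₀ hm
  apply mul_right_cancel₀ hm
  calc (P i).eval s * (P j).eval t * (P m).eval (x 0) * (P m).eval (x 0)
      = ((P i).eval s * (P m).eval (x 0)) * ((P j).eval t * (P m).eval (x 0)) := by ring
    _ = ((P m).eval s * (P i).eval (x 0)) * ((P m).eval t * (P j).eval (x 0)) := by
        rw [key s i, key t j]
    _ = ((P m).eval s * (P j).eval (x 0)) * ((P m).eval t * (P i).eval (x 0)) := by ring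
    _ = ((P j).eval s * (P m).eval (x 0)) * ((P i).eval t * (P m).eval (x 0)) := by
        rw [key s j, key t i]
    _ = (P j).eval s * (P i).eval t * (P m).eval (x 0) * (P m).eval (x 0) := by ring

/-- **Finiteness of pointed maps.** -/
theorem noGm_of_ptdFinite {E : Set (MvPolynomial (Fin (n + 1)) ℂ)}
    {Q : MvPolynomial (Fin (n + 1)) ℂ} {q : ℕ} (hQ : Q.IsHomogeneous q) (h : PtdFinite E Q) :
    NoGm E Q := by
  classical
  intro N P0 hP0
  obtain ⟨g, P, hg, hPP, hpr⟩ := hP0.prim hQ
  have hP : GmBdd (Ideal.span E) Q N P := Pool.Agent.V1153.OD.prim_bdd hQ hP0 hg hPP hpr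
  have h1 : (fun j => (P j).eval 1) ≠ 0 := by
    obtain ⟨j, hj⟩ := hpr.ne 1
    exact fun h0 => hj (congrFun h0 j)
  obtain ⟨S, hS0, hS⟩ := h _ h1
  have h2 : ∀ k : ℕ, ∃ P' ∈ S, ∀ i j, (P i).comp (Polynomial.X ^ (k + 1)) * P' j =
      (P j).comp (Polynomial.X ^ (k + 1)) * P' i := by
    intro k
    refine hS _ _ (gm_pow hP (Nat.succ_pos k)) ?_ ?_
    · simpa only [Polynomial.eval_comp, Polynomial.eval_pow, Polynomial.eval_X, one_pow] using h1
    · intro j l
      simp only [Polynomial.eval_comp, Polynomial.eval_pow, Polynomial.eval_X, one_pow]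
      ring
  choose P' hP'S hP' using h2
  obtain ⟨k, l, hkl, hPkl⟩ : ∃ k l : ℕ, k < l ∧ P' k = P' l := by
    by_contra hcon
    push Not at hcon
    have hinj : Function.Injective P' := by
      intro k l hkl
      rcases lt_trichotomy k l with h3 | h3 | h3
      · exact absurd hkl (hcon k l h3)
      · exact h3
      · exact absurd hkl.symm (hcon l k h3)
    exact Set.infinite_of_injective_forall_mem hinj (fun k => Finset.mem_coe.2 (hP'S k))
      (Finset.finite_toSet S)
  obtain ⟨m, hm⟩ : ∃ m, P' k m ≠ 0 := by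
    by_contra hcon
    push Not at hcon
    exact hS0 _ (hP'S k) (funext hcon)
  have h3 : ∀ i j, (P i).comp (Polynomial.X ^ (k + 1)) * (P j).comp (Polynomial.X ^ (l + 1)) =
      (P j).comp (Polynomial.X ^ (k + 1)) * (P i).comp (Polynomial.X ^ (l + 1)) := by
    intro i j
    have a1 := hP' k
    have a2 := hP' l
    rw [← hPkl] at a2
    apply mul_right_cancel₀ hm
    apply mul_right_cancel₀ hm
    calc (P i).comp (Polynomial.X ^ (k + 1)) * (P j).comp (Polynomial.X ^ (l + 1)) * P' k m *
          P' k m = ((P i).comp (Polynomial.X ^ (k + 1)) * P' k m) *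
            ((P j).comp (Polynomial.X ^ (l + 1)) * P' k m) := by ring
      _ = ((P m).comp (Polynomial.X ^ (k + 1)) * P' k i) *
            ((P m).comp (Polynomial.X ^ (l + 1)) * P' k j) := by rw [a1 i m, a2 j m]
      _ = ((P m).comp (Polynomial.X ^ (k + 1)) * P' k j) *
            ((P m).comp (Polynomial.X ^ (l + 1)) * P' k i) := by ring
      _ = ((P j).comp (Polynomial.X ^ (k + 1)) * P' k m) *
            ((P i).comp (Polynomial.X ^ (l + 1)) * P' k m) := by rw [a1 j m, a2 i m]
      _ = (P j).comp (Polynomial.X ^ (k + 1)) * (P i).comp (Polynomial.X ^ (l + 1)) * P' k m *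
          P' k m := by ring
  have h4 := const_of_powers hpr.ne (Nat.succ_pos k) (Nat.succ_lt_succ hkl) (fun t i j => by
    have h5 := congrArg (Polynomial.eval t) (h3 i j)
    simpa only [Polynomial.eval_mul, Polynomial.eval_comp, Polynomial.eval_pow,
      Polynomial.eval_X] using h5)
  obtain ⟨s, t, j, i, -, -, hst⟩ := hpr.nc
  exact hst (h4 s t j i)

end Pool.Agent.V1153.UR
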