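import Pool.Agent.V1153.UR.Eqv

/-!
The closed subsets of a quasi-projective variety which contain the restricted special subsets.
-/

set_option autoImplicit false

namespace Pool.Agent.V1153.UR

open MvPolynomial Pool.Agent.V1153.UG Pool.Agent.V1153.IT Pool.Agent.V1153.XS
open Pool.Agent.Y377.ST (IterVec ptsOff)
open Pool.Agent.TH143.GT (FunField)
open Pool.Agent.W602.GT (LogGeneralType)
open Pool.Agent.W603.GR (OffQ)
open Pool.Agent.W603.BP (Extends)

variable {n : ℕ}

/-- All nonconstant maps from the punctured line to `X`, the complement of `Q = 0` in the projective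
variety with the equations `E`, are contained in `G = 0`. -/
def InGm (E : Set (MvPolynomial (Fin (n + 1)) ℂ)) (Q G : MvPolynomial (Fin (n + 1)) ℂ) : Prop :=
  ∀ N P, GmBdd (Ideal.span E) Q N P → ∀ t, eval (fun j => (P j).eval t) G = 0

/-- All nonconstant entire curves in `X` are contained in `G = 0`. -/
def InEntire (E : Set (MvPolynomial (Fin (n + 1)) ℂ)) (Q G : MvPolynomial (Fin (n + 1)) ℂ) : Prop :=
  ∀ f, Curve (Ideal.span E) Q f → ∀ z, eval (f z) G = 0

/-- All nonconstant entire curves in `X` of finite complexity are contained in `G = 0`. -/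
def InFinite (E : Set (MvPolynomial (Fin (n + 1)) ℂ)) (Q G : MvPolynomial (Fin (n + 1)) ℂ) : Prop :=
  ∀ s r e d f, Curve (Ideal.span E) Q f → Bdd Set.univ Q s r e d f → ∀ z, eval (f z) G = 0

/-- All nonconstant entire curves in `X` with homogeneous coordinates which satisfy linear
differential equations with polynomial coefficients are contained in `G = 0`. -/
def InDFin (E : Set (MvPolynomial (Fin (n + 1)) ℂ)) (Q G : MvPolynomial (Fin (n + 1)) ℂ) : Prop :=
  ∀ r d f, Curve (Ideal.span E) Q f → (∀ j, DFin r d fun z => f z j) → ∀ z, eval (f z) G = 0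

/-- All holomorphic maps from the punctured disc to `X` with an essential singularity are contained
in `G = 0`. -/
def InPicard (E : Set (MvPolynomial (Fin (n + 1)) ℂ)) (Q G : MvPolynomial (Fin (n + 1)) ℂ) : Prop :=
  ∀ f, DCurve (Ideal.span E) Q f → ¬ Extends f → ∀ z ∈ pdisc, eval (f z) G = 0

/-- All holomorphic maps of finite complexity from the punctured disc to `X` with an essential
singularity are contained in `G = 0`. -/
def InPicardFinite (E : Set (MvPolynomial (Fin (n + 1)) ℂ)) (Q G : MvPolynomial (Fin (n + 1)) ℂ) :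
    Prop :=
  ∀ s r e d f, DCurve (Ideal.span E) Q f → Bdd pdisc Q s r e d f → ¬ Extends f →
    ∀ z ∈ pdisc, eval (f z) G = 0

/-- All nonconstant maps from affine spaces to `X` given by sums of products of polynomials and
exponentials of entire functions are contained in `G = 0`. -/
def InExp (E : Set (MvPolynomial (Fin (n + 1)) ℂ)) (Q G : MvPolynomial (Fin (n + 1)) ℂ) : Prop :=
  ∀ m r e f, ExpMap m r e (Ideal.span E) Q f → ∀ z, eval (f z) G = 0

/-- All integral closed subvarieties of `X` which are covered by curves of the punctured line are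
contained in `G = 0`. -/
def InRuled (E : Set (MvPolynomial (Fin (n + 1)) ℂ)) (Q G : MvPolynomial (Fin (n + 1)) ℂ) : Prop :=
  ∀ I : Ideal (MvPolynomial (Fin (n + 1)) ℂ), I.IsPrime → Ideal.span E ≤ I → Q ∉ I →
    GmRuled I Q → G ∈ I

/-- All integral closed subvarieties of `X` with more than one point, which are not of log general
type, are contained in `G = 0`. -/
def InNotLog (E : Set (MvPolynomial (Fin (n + 1)) ℂ)) (Q : MvPolynomial (Fin (n + 1)) ℂ) (q : ℕ)
    (G : MvPolynomial (Fin (n + 1)) ℂ) : Prop :=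
  ∀ I : Ideal (MvPolynomial (Fin (n + 1)) ℂ), I.IsPrime → Ideal.span E ≤ I → Q ∉ I → G ∉ I →
    (∃ v w : Fin (n + 1) → ℂ, (∀ F ∈ I, (∃ d, F.IsHomogeneous d) → eval v F = 0) ∧
      (∀ F ∈ I, (∃ d, F.IsHomogeneous d) → eval w F = 0) ∧ eval v Q ≠ 0 ∧ eval w Q ≠ 0 ∧
      ∃ i j, v i * w j ≠ v j * w i) →
    ∃ (K : Type) (_ : Field K) (_ : Algebra ℂ K) (w : ℕ) (y : Fin (n + 1) → K),
      FunField I Q K w y ∧ LogGeneralType ℂ K w (OffQ Q q y)

/-- For every point `x` outside of `G = 0` there are, up to common factors, only finitely many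
nonconstant maps from the punctured line to `X` which send `1` to `x`. -/
def InPtd (E : Set (MvPolynomial (Fin (n + 1)) ℂ)) (Q G : MvPolynomial (Fin (n + 1)) ℂ) : Prop :=
  ∀ x : Fin (n + 1) → ℂ, eval x G ≠ 0 → ∃ S : Finset (Fin (n + 1) → Polynomial ℂ),
    (∀ P ∈ S, P ≠ 0) ∧
    ∀ N P, GmBdd (Ideal.span E) Q N P → (fun j => (P j).eval 1) ≠ 0 →
      (∀ j l, (P j).eval 1 * x l = (P l).eval 1 * x j) →
        ∃ P' ∈ S, ∀ j l, P j * P' l = P l * P' j

/-- The families of points of `X` given by iterated recurrences of type `(s, r, e)` have at most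
`B s r e` different points outside of `G = 0`. -/
def InRec (E : Set (MvPolynomial (Fin (n + 1)) ℂ)) (Q G : MvPolynomial (Fin (n + 1)) ℂ)
    (B : ℕ → ℕ → ℕ → ℕ) : Prop :=
  ∀ (s r e : ℕ) (H : Type) [Group H] (x : H → Fin (n + 1) → ℂ),
    (∀ h, ∀ F ∈ E, eval (x h) F = 0) → IterOff s r e Q x → (ptsOff G x).encard ≤ (B s r e : ℕ∞)

section

variable {E : Set (MvPolynomial (Fin (n + 1)) ℂ)} {Q G : MvPolynomial (Fin (n + 1)) ℂ} {q γ : ℕ}

theorem InGm.ruled (hG : G.IsHomogeneous γ) (h : InGm E Q G) : InRuled E Q G := by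
  rintro I hI hEI hQI ⟨L, _, _, P, hP, hQ, hdom, hn⟩
  by_contra hGI
  obtain ⟨p, hpd, hpS, hpQ, hpn, hpG⟩ := special (S := {F | F ∈ I ∧ ∃ m, F.IsHomogeneous m})
    (fun F hF => hP F hF.1 hF.2) hQ hn (hdom G ⟨γ, hG⟩ hGI)
  apply hpG
  apply Polynomial.funext
  intro t
  rw [UG.eval_aeval, Polynomial.eval_zero]
  exact h (Finset.univ.sup fun j => (P j).natDegree) p ⟨fun j => (hpd j).trans
    (Finset.le_sup (f := fun j => (P j).natDegree) (Finset.mem_univ j)),
    fun F hF hFh => hpS F ⟨hEI hF, hFh⟩, hpQ, nc_of_wr hpn⟩ t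

theorem InRuled.gm (hE : ∀ F ∈ E, ∃ a, F.IsHomogeneous a) (hQ : Q.IsHomogeneous q)
    (hG : G.IsHomogeneous γ) (h : InRuled E Q G) : InGm E Q G := by
  intro N P hP t
  obtain ⟨c, κ, hc, hκ⟩ := hP.off
  have hIm : ∀ F : MvPolynomial (Fin (n + 1)) ℂ, (∃ d, F.IsHomogeneous d) →
      (F ∈ RingHom.ker (cone P) ↔ aeval P F = 0) := by
    rintro F ⟨d, hd⟩
    rw [RingHom.mem_ker]
    exact cone_zero_iff hd
  have h1 := h (RingHom.ker (cone P)) (RingHom.ker_isPrime _) (by
    rw [Ideal.span_le]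
    intro F hF
    exact (hIm F (hE F hF)).2 (hP.mem F (Ideal.subset_span hF) (hE F hF))) (by
    rw [hIm Q ⟨q, hQ⟩, hκ]
    exact mul_ne_zero (Polynomial.C_ne_zero.2 hc) (pow_ne_zero _ Polynomial.X_ne_zero))
    ⟨ℂ, inferInstance, inferInstance, P, fun F hF hFh => (hIm F hFh).1 hF, ⟨c, κ, hc, hκ⟩,
      fun G hG hGI h0 => hGI ((hIm G hG).2 h0), wr_of_nc hP.nc⟩
  rw [← UG.eval_aeval, (hIm G ⟨γ, hG⟩).1 h1, Polynomial.eval_zero]

theorem InNotLog.gm (hE : ∀ F ∈ E, ∃ a, F.IsHomogeneous a) (hQ : Q.IsHomogeneous q)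
    (hG : G.IsHomogeneous γ) (h : InNotLog E Q q G) : InGm E Q G := by
  intro N P hP
  obtain ⟨g, P', hg, hPP, hpr⟩ := hP.prim hQ
  refine vanish_P hPP hG ?_
  have hP' : GmBdd (Ideal.span E) Q N P' := Pool.Agent.V1153.OD.prim_bdd hQ hP hg hPP hpr
  obtain ⟨c, κ, hc, hκ⟩ := hP'.off
  set I : Ideal (MvPolynomial (Fin (n + 1)) ℂ) := RingHom.ker (cone P') with hI
  have hIp : I.IsPrime := RingHom.ker_isPrime _
  have hIm : ∀ F : MvPolynomial (Fin (n + 1)) ℂ, (∃ d, F.IsHomogeneous d) →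
      (F ∈ I ↔ aeval P' F = 0) := by
    rintro F ⟨d, hd⟩
    rw [hI, RingHom.mem_ker]
    exact cone_zero_iff hd
  have hon : ∀ t, ∀ F ∈ I, (∃ d, F.IsHomogeneous d) → eval (fun j => (P' j).eval t) F = 0 := by
    intro t F hF hFh
    rw [← UG.eval_aeval, (hIm F hFh).1 hF, Polynomial.eval_zero]
  by_cases hGI : G ∈ I
  · exact fun t _ => hon t G hGI ⟨γ, hG⟩
  obtain ⟨s, t, j, l, hs, ht, hst⟩ := hpr.nc
  obtain ⟨K, iK, iA, w, y, hy, hL⟩ := h I hIp (by
    rw [Ideal.span_le]
    intro F hF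
    exact (hIm F (hE F hF)).2 (hP'.mem F (Ideal.subset_span hF) (hE F hF))) (by
    rw [hIm Q ⟨q, hQ⟩, hκ]
    exact mul_ne_zero (Polynomial.C_ne_zero.2 hc) (pow_ne_zero _ Polynomial.X_ne_zero)) hGI
    ⟨fun j => (P' j).eval s, fun j => (P' j).eval t, hon s, hon t, hpr.off s hs, hpr.off t ht,
      j, l, hst⟩
  refine absurd ?_ (not_ruled_of_lgt hQ hy hL)
  exact ⟨ℂ, inferInstance, inferInstance, P', fun F hF hFh =>
    (hIm F hFh).1 hF, ⟨c, κ, hc, hκ⟩, fun G hG hGI h0 => hGI ((hIm G hG).2 h0),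
    wr_of_nc ⟨s, t, j, l, hst⟩⟩

/-- the entire curve of a curve of the punctured line -/
theorem prim_curve {P' : Fin (n + 1) → Polynomial ℂ} (hpr : Prim (Ideal.span E) Q P') :
    Curve (Ideal.span E) Q fun z j => (P' j).eval (Complex.exp z) := by
  refine ⟨fun j => (P' j).differentiable.comp Complex.differentiable_exp,
    fun z h0 => ?_, fun z F hF hFh => hpr.mem _ F hF hFh,
    fun z => hpr.off _ (Complex.exp_ne_zero z), ?_⟩
  · obtain ⟨j, hj⟩ := hpr.ne (Complex.exp z)
    exact hj (congrFun h0 j)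
  · obtain ⟨s, t, j, k, hs, ht, hst⟩ := hpr.nc
    refine ⟨Complex.log s, Complex.log t, j, k, ?_⟩
    simp only [Complex.exp_log ht, Complex.exp_log hs]
    exact hst

theorem InEntire.gm (hQ : Q.IsHomogeneous q) (hG : G.IsHomogeneous γ) (h : InEntire E Q G) :
    InGm E Q G := fun _ P hP => van_of_dfin hQ ⟨γ, hG⟩ (fun f hf _ z => h f hf z) P hP

theorem InPicard.gm (hQ : Q.IsHomogeneous q) (hG : G.IsHomogeneous γ) (h : InPicard E Q G) :
    InGm E Q G := fun _ P hP => van_of_disc hQ ⟨γ, hG⟩ (fun f hf _ he z hz => h f hf he z hz) P hP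

theorem InGm.exp (hQ : Q.IsHomogeneous q) (hG : G.IsHomogeneous γ) (h : InGm E Q G) :
    InExp E Q G := by
  intro m r e f hf z
  obtain ⟨N, hN⟩ := exp_point (Ideal.span E) hQ r e
  have h1 : ∀ x, f x ≠ 0 → eval (f x) G = 0 := by
    intro x hx
    obtain ⟨P, hP, hP1⟩ := hN m f hf x hx
    rw [← hP1]
    exact h N P hP 1
  by_cases hz : f z = 0
  · obtain ⟨z', w, j, l, hne⟩ := hf.nc
    obtain ⟨x, hx⟩ : ∃ x, f x ≠ 0 := by
      by_contra h0
      push Not at h0
      apply hne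
      rw [h0 z', h0 w]
      rfl
    have h3 := eval_homog hG 0 (f x)
    rw [h1 x hx, mul_zero] at h3
    rw [hz]
    have h4 : (0 : Fin (n + 1) → ℂ) = fun j => 0 * f x j := by
      funext j
      rw [zero_mul]
      rfl
    rw [h4]
    exact h3
  · exact h1 z hz

theorem InExp.gm (hQ : Q.IsHomogeneous q) (hG : G.IsHomogeneous γ) (h : InExp E Q G) :
    InGm E Q G := by
  intro N P hP
  obtain ⟨g, P', hg, hPP, hpr⟩ := hP.prim hQ
  refine vanish_P hPP hG fun t ht => ?_
  set M := Finset.univ.sup fun j => (P' j).natDegree with hM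
  have h1 := h 1 (M + 1) 0 (fun z j => (P' j).eval (Complex.exp (z 0))) ⟨fun j => ?_,
    fun z => hpr.mem _, fun z => hpr.off _ (Complex.exp_ne_zero _), ?_⟩ (fun _ => Complex.log t)
  · simp only [Complex.exp_log ht] at h1
    exact h1
  · refine ⟨fun i => C ((P' j).coeff i), fun i z => (i : ℕ) * z 0, fun i => ⟨by
      rw [totalDegree_C], (differentiable_apply 0).const_mul _⟩, fun z => ?_⟩
    have hdeg : (P' j).natDegree < M + 1 := Nat.lt_succ_of_le
      (Finset.le_sup (f := fun j => (P' j).natDegree) (Finset.mem_univ j))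
    change (P' j).eval (Complex.exp (z 0)) = _
    rw [Polynomial.eval_eq_sum_range' hdeg,
      ← Fin.sum_univ_eq_sum_range (fun i => (P' j).coeff i * Complex.exp (z 0) ^ i)]
    refine Finset.sum_congr rfl fun i _ => ?_
    rw [eval_C, ← Complex.exp_nat_mul]
  · obtain ⟨s, t, j, l, hs, ht, hst⟩ := hpr.nc
    refine ⟨fun _ => Complex.log s, fun _ => Complex.log t, j, l, ?_⟩
    simp only [Complex.exp_log ht, Complex.exp_log hs]
    exact hst

theorem InGm.ptd (hG : G.IsHomogeneous γ) (h : InGm E Q G) : InPtd E Q G := by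
  refine fun x hx => ⟨∅, fun P hP => absurd hP (Finset.notMem_empty _), fun N P hP h1 hpar => ?_⟩
  exfalso
  apply hx
  obtain ⟨m, hm⟩ := Function.ne_iff.1 h1
  have hm' : (P m).eval 1 ≠ 0 := hm
  have h2 : x = fun j => x m / (P m).eval 1 * (P j).eval 1 := by
    funext j
    rw [div_mul_eq_mul_div, eq_div_iff hm']
    linear_combination hpar m j
  rw [h2, eval_homog hG, h N P hP 1, mul_zero]

theorem InPtd.gm (hQ : Q.IsHomogeneous q) (hG : G.IsHomogeneous γ) (h : InPtd E Q G) :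
    InGm E Q G := by
  classical
  intro N P0 hP0
  obtain ⟨g, P1, hg, hPP, hpr1⟩ := hP0.prim hQ
  refine vanish_P hPP hG fun t ht => ?_
  by_contra hGt
  have hP1 : GmBdd (Ideal.span E) Q N P1 := Pool.Agent.V1153.OD.prim_bdd hQ hP0 hg hPP hpr1
  set P : Fin (n + 1) → Polynomial ℂ := fun j => (P1 j).comp (Polynomial.C t * Polynomial.X)
    with hPd
  have hP : GmBdd (Ideal.span E) Q N P := hP1.scale ht
  have hev : ∀ j z, (P j).eval z = (P1 j).eval (t * z) := by
    intro j z
    simp only [hPd, Polynomial.eval_comp, Polynomial.eval_mul, Polynomial.eval_C,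
      Polynomial.eval_X]
  have hne : ∀ a, ∃ j, (P j).eval a ≠ 0 := by
    intro a
    obtain ⟨j, hj⟩ := hpr1.ne (t * a)
    exact ⟨j, by rwa [hev]⟩
  have h1 : (fun j => (P j).eval 1) ≠ 0 := by
    obtain ⟨j, hj⟩ := hne 1
    exact fun h0 => hj (congrFun h0 j)
  obtain ⟨S, hS0, hS⟩ := h (fun j => (P j).eval 1) (by
    simp only [hev, mul_one]
    exact hGt)
  have h2 : ∀ k : ℕ, ∃ P' ∈ S, ∀ i j, (P i).comp (Polynomial.X ^ (k + 1)) * P' j =
      (P j).comp (Polynomial.X ^ (k + 1)) * P' i := by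
    intro k
    refine hS _ _ (gm_pow hP (Nat.succ_pos k)) ?_ ?_
    · simpa only [Polynomial.eval_comp, Polynomial.eval_pow, Polynomial.eval_X, one_pow] using h1
    · intro j l
      simp only [Polynomial.eval_comp, Polynomial.eval_pow, Polynomial.eval_X, one_pow]
      ring
  choose P' hP'S hP' using h2
  obtain ⟨k, l, hkl, hPkl⟩ : ∃ k l : ℕ, k < l ∧ P' k = P' l := by
    by_contra hcon
    push Not at hcon
    have hinj : Function.Injective P' := by
      intro k l hkl
      rcases lt_trichotomy k l with h3 | h3 | h3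
      · exact absurd hkl (hcon k l h3)
      · exact h3
      · exact absurd hkl.symm (hcon l k h3)
    exact Set.infinite_of_injective_forall_mem hinj (fun k => Finset.mem_coe.2 (hP'S k))
      (Finset.finite_toSet S)
  obtain ⟨m, hm⟩ : ∃ m, P' k m ≠ 0 := by
    by_contra hcon
    push Not at hcon
    exact hS0 _ (hP'S k) (funext hcon)
  have h3 : ∀ i j, (P i).comp (Polynomial.X ^ (k + 1)) * (P j).comp (Polynomial.X ^ (l + 1)) =
      (P j).comp (Polynomial.X ^ (k + 1)) * (P i).comp (Polynomial.X ^ (l + 1)) := by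
    intro i j
    have a1 := hP' k
    have a2 := hP' l
    rw [← hPkl] at a2
    apply mul_right_cancel₀ hm
    apply mul_right_cancel₀ hm
    calc (P i).comp (Polynomial.X ^ (k + 1)) * (P j).comp (Polynomial.X ^ (l + 1)) * P' k m *
          P' k m = ((P i).comp (Polynomial.X ^ (k + 1)) * P' k m) *
            ((P j).comp (Polynomial.X ^ (l + 1)) * P' k m) := by ring
      _ = ((P m).comp (Polynomial.X ^ (k + 1)) * P' k i) *
            ((P m).comp (Polynomial.X ^ (l + 1)) * P' k j) := by rw [a1 i m, a2 j m]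
      _ = ((P m).comp (Polynomial.X ^ (k + 1)) * P' k j) *
            ((P m).comp (Polynomial.X ^ (l + 1)) * P' k i) := by ring
      _ = ((P j).comp (Polynomial.X ^ (k + 1)) * P' k m) *
            ((P i).comp (Polynomial.X ^ (l + 1)) * P' k m) := by rw [a1 j m, a2 i m]
      _ = (P j).comp (Polynomial.X ^ (k + 1)) * (P i).comp (Polynomial.X ^ (l + 1)) * P' k m *
          P' k m := by ring
  have h4 := const_of_powers hne (Nat.succ_pos k) (Nat.succ_lt_succ hkl) (fun t i j => by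
    have h5 := congrArg (Polynomial.eval t) (h3 i j)
    simpa only [Polynomial.eval_mul, Polynomial.eval_comp, Polynomial.eval_pow,
      Polynomial.eval_X] using h5)
  obtain ⟨s, t', j, i, hst⟩ := hP.nc
  exact hst (h4 s t' j i)

theorem InRec.gm {B : ℕ → ℕ → ℕ → ℕ} (hE : ∀ F ∈ E, ∃ a, F.IsHomogeneous a)
    (hQ : Q.IsHomogeneous q) (hG : G.IsHomogeneous γ) (h : InRec E Q G B) : InGm E Q G := by
  intro N P hP
  obtain ⟨g, P', hg, hPP, hpr⟩ := hP.prim hQ
  refine vanish_P hPP hG fun t ht => ?_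
  by_contra hGt
  have hP2 : GmBdd (Ideal.span E) Q N P' := Pool.Agent.V1153.OD.prim_bdd hQ hP hg hPP hpr
  refine curve_infinite hP2 hGt (Set.finite_of_encard_le_coe (h 1 1 (q * N + N) _
    (fun (h : Multiplicative ℤ) j => (P' j).eval (tw h)) (fun h F hF => ?_)
    (iter_curve le_rfl hQ hP2)))
  obtain ⟨a, ha⟩ := hE F hF
  exact hpr.mem _ F (Ideal.subset_span hF) ⟨a, ha⟩

end

/-- **The restricted special subsets coincide.** -/
theorem spec_tfae (n D : ℕ) : ∃ B : ℕ → ℕ → ℕ → ℕ, ∀ (E : Set (MvPolynomial (Fin (n + 1)) ℂ))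
    (Q G : MvPolynomial (Fin (n + 1)) ℂ) (q : ℕ), (∀ F ∈ E, ∃ a ≤ D, F.IsHomogeneous a) →
    q ≤ D → Q.IsHomogeneous q → (∃ a ≤ D, G.IsHomogeneous a) →
      List.TFAE [InGm E Q G, InFinite E Q G, InDFin E Q G, InPicardFinite E Q G, InExp E Q G,
        InRuled E Q G, InPtd E Q G, InRec E Q G B] ∧
      (InEntire E Q G ∨ InPicard E Q G ∨ InNotLog E Q q G → InGm E Q G) := by
  choose B hB using fun s r e => arith_family n D s r e
  refine ⟨B, fun E Q G q hE hq hQ hG' => ?_⟩
  have hom : ∀ F ∈ E, ∃ a, F.IsHomogeneous a := fun F hF => by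
    obtain ⟨a, -, ha⟩ := hE F hF
    exact ⟨a, ha⟩
  obtain ⟨γ, hγ, hG⟩ := id hG'
  refine ⟨?_, ?_⟩
  · tfae_have 1 → 2 := by
      intro h s r e d f hf hb
      obtain ⟨N, hN⟩ := family n D s r e d
      exact (hN E Q G hE ⟨q, hq, hQ⟩ hG' (h N)).1 f hf hb
    tfae_have 2 → 3 := fun h r d f hf hd => h _ _ _ _ f hf (DFin.bddQ hf.diff hf.off hd)
    tfae_have 3 → 1 := fun h N P hP =>
      van_of_dfin hQ ⟨γ, hG⟩ (fun f hf hd z => h _ _ f hf hd z) P hP
    tfae_have 1 → 4 := by
      intro h s r e d f hf hb he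
      obtain ⟨N, hN⟩ := family n D s r e d
      exact (hN E Q G hE ⟨q, hq, hQ⟩ hG' (h N)).2.1 f hf hb he
    tfae_have 4 → 1 := fun h N P hP =>
      van_of_disc hQ ⟨γ, hG⟩ (fun f hf hd he z hz => h _ _ _ _ f hf hd he z hz) P hP
    tfae_have 1 → 5 := InGm.exp hQ hG
    tfae_have 5 → 1 := InExp.gm hQ hG
    tfae_have 1 → 6 := InGm.ruled hG
    tfae_have 6 → 1 := InRuled.gm hom hQ hG
    tfae_have 1 → 7 := InGm.ptd hG
    tfae_have 7 → 1 := InPtd.gm hQ hG
    tfae_have 1 → 8 := by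
      intro h s r e H _ x hx hit
      refine hB s r e ℂ (RingHom.id ℂ) E Q G hE ⟨q, hq, hQ⟩ hG' (fun P hP => ?_) H x hx hit
      have h0 : (fun F : MvPolynomial (Fin (n + 1)) ℂ => map (RingHom.id ℂ) F) = id := by
        funext F
        exact map_id F
      have h1 : map (RingHom.id ℂ) '' E = E := by
        change (fun F : MvPolynomial (Fin (n + 1)) ℂ => map (RingHom.id ℂ) F) '' E = E
        rw [h0]
        exact Set.image_id E
      rw [h1, map_id] at hP
      rw [map_id]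
      exact h _ P hP
    tfae_have 8 → 1 := InRec.gm hom hQ hG
    tfae_finish
  · rintro (h | h | h)
    · exact h.gm hQ hG
    · exact h.gm hQ hG
    · exact h.gm hom hQ hG

end Pool.Agent.V1153.UR
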