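import Pool.Agent.V1153.UR.Rec
import Pool.Agent.V1153.UR.Sum
import Pool.Agent.V1153.UG.Img

/-!
Varieties with a Zariski-dense curve or family of points of finite complexity, and their images
under rational maps.
-/

set_option autoImplicit false

namespace Pool.Agent.V1153.UR

open MvPolynomial Pool.Agent.V1153.UG Pool.Agent.V1153.IT Pool.Agent.V1153.XS
open Pool.Agent.Y377.ST (IterVec ptsOff iterVec_orb)
open Pool.Agent.TH717.GO (orb)

variable {n m : ℕ}

/-- The set `S` of vectors of homogeneous coordinates is Zariski-dense in the projective variety with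
the ideal `I`: the forms which vanish on `S` are in `I`. -/
def DenseIn (I : Ideal (MvPolynomial (Fin (n + 1)) ℂ)) (S : Set (Fin (n + 1) → ℂ)) : Prop :=
  ∀ G : MvPolynomial (Fin (n + 1)) ℂ, (∃ d, G.IsHomogeneous d) → (∀ x ∈ S, eval x G = 0) → G ∈ I

/-- The projective variety with the ideal `J` is not a point (and not empty). -/
def PosDim (J : Ideal (MvPolynomial (Fin (m + 1)) ℂ)) : Prop :=
  ∀ c : Fin (m + 1) → ℂ, c ≠ 0 → ∃ i j, C (c i) * X j - C (c j) * X i ∉ J

theorem lin_homog {L : Type} [Field L] {m : ℕ} (a b : L) (i j : Fin (m + 1)) :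
    (C a * X j - C b * X i : MvPolynomial (Fin (m + 1)) L).IsHomogeneous 1 := by
  have h : ∀ (a : L) (i : Fin (m + 1)), (C a * X i : MvPolynomial (Fin (m + 1)) L).IsHomogeneous 1 := by
    intro a i
    have := (isHomogeneous_C (Fin (m + 1)) a).mul (isHomogeneous_X L i)
    simpa using this
  exact (h a j).sub (h b i)

theorem eval_lin (g : Fin (m + 1) → MvPolynomial (Fin (n + 1)) ℂ) (a b : ℂ) (i j : Fin (m + 1))
    (x : Fin (n + 1) → ℂ) : eval x (aeval g (C a * X j - C b * X i)) =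
      a * eval x (g j) - b * eval x (g i) := by
  rw [eval_aeval']
  simp

section images

variable {I : Ideal (MvPolynomial (Fin (n + 1)) ℂ)} {J : Ideal (MvPolynomial (Fin (m + 1)) ℂ)}
  {g : Fin (m + 1) → MvPolynomial (Fin (n + 1)) ℂ} {δ : ℕ}

/-- a dense set on which the map is constant -/
theorem point_of_const (hg : DomRat I g δ J) (hd : PosDim J) {S : Set (Fin (n + 1) → ℂ)}
    (hS : DenseIn I S) {x0 : Fin (n + 1) → ℂ} {i0 : Fin (m + 1)} (h0 : eval x0 (g i0) ≠ 0)
    (h : ∀ x ∈ S, ∀ i j, eval x (g i) * eval x0 (g j) = eval x (g j) * eval x0 (g i)) : False := by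
  obtain ⟨i, j, hij⟩ := hd (fun i => eval x0 (g i)) fun h1 => h0 (congrFun h1 i0)
  apply hij
  rw [hg.im _ ⟨1, lin_homog _ _ _ _⟩]
  refine hS _ ⟨_, (lin_homog _ _ _ _).aeval g fun i => hg.hom i⟩ fun x hx => ?_
  rw [eval_lin]
  linear_combination h x hx j i

/-- **Dense entire curves.** -/
theorem image_of_curve (hI : I.IsPrime) (hJ : J.IsPrime) (hg : DomRat I g δ J) (hd : PosDim J)
    {s r e d : ℕ} {f : ℂ → Fin (n + 1) → ℂ} (hf : Curve I 1 f) (hb : Bdd Set.univ 1 s r e d f)
    (hS : DenseIn I (Set.range f)) : Uniruled J := by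
  by_contra hnu
  obtain ⟨G, hGh, hG, hall⟩ := fibre_thin hI
    (thin_of_not_ruled hJ (isHomogeneous_one _ _) fun h => hnu (uniruled_iff.1 h)) hg s r e d
  rcases hall f hf hb with h1 | ⟨⟨z0, i0, h0⟩, h1⟩
  · refine hG (hS G hGh ?_)
    rintro _ ⟨z, rfl⟩
    exact h1 z
  · refine point_of_const hg hd hS h0 ?_
    rintro _ ⟨z, rfl⟩ i j
    exact h1 z z0 i j

/-- **Dense exponential maps.** -/
theorem image_of_exp (hI : I.IsPrime) (hJ : J.IsPrime) (hg : DomRat I g δ J) (hd : PosDim J)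
    {k r e : ℕ} {f : (Fin k → ℂ) → Fin (n + 1) → ℂ} (hf : ExpMap k r e I 1 f)
    (hS : DenseIn I (Set.range f)) : Uniruled J := by
  by_contra hnu
  obtain ⟨G, hGh, hG, hall⟩ := exp_fibre hI
    (thin_of_not_ruled hJ (isHomogeneous_one _ _) fun h => hnu (uniruled_iff.1 h)) hg r e
  rcases hall k f hf with h1 | ⟨⟨z0, i0, h0⟩, h1⟩
  · refine hG (hS G hGh ?_)
    rintro _ ⟨z, rfl⟩
    exact h1 z
  · refine point_of_const hg hd hS h0 ?_
    rintro _ ⟨z, rfl⟩ i j
    exact h1 z z0 i j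

/-- **Dense recurrent families.** -/
theorem image_of_rec (hI : I.IsPrime) (hJ : J.IsPrime) (hg : DomRat I g δ J) (hd : PosDim J)
    {s r e : ℕ} {H : Type} [Group H] {x : H → Fin (n + 1) → ℂ}
    (hx : ∀ h, ∀ F ∈ I, (∃ d, F.IsHomogeneous d) → eval (x h) F = 0) (hit : IterVec s r e x)
    (hS : DenseIn I (Set.range x)) : Uniruled J := by
  classical
  by_contra hnu
  obtain ⟨G, B, hGh, hG, hGg, hall⟩ := img_bound hI hJ
    (thin_of_not_ruled hJ (isHomogeneous_one _ _) fun h => hnu (uniruled_iff.1 h)) hg s r e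
  have hfin : (imgOff g G x).Finite := Set.finite_of_encard_le_coe (hall H x hx hit)
  choose i j hij using fun P : Projectivization ℂ (Fin (m + 1) → ℂ) => hd P.rep P.rep_nonzero
  let lf : Projectivization ℂ (Fin (m + 1) → ℂ) → MvPolynomial (Fin (m + 1)) ℂ := fun P =>
    C (P.rep (i P)) * X (j P) - C (P.rep (j P)) * X (i P)
  have hlf : ∀ P, (lf P).IsHomogeneous 1 := fun P => lin_homog _ _ _ _
  have h1 : G * ∏ P ∈ hfin.toFinset, aeval g (lf P) ∈ I := by
    refine hS _ ?_ ?_
    · obtain ⟨a, ha⟩ := hGh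
      exact ⟨_, ha.mul (IsHomogeneous.prod _ _ (fun _ => δ * 1) fun P _ =>
        (hlf P).aeval g fun i => hg.hom i)⟩
    · rintro _ ⟨h, rfl⟩
      rw [map_mul]
      by_cases hGx : eval (x h) G = 0
      · rw [hGx, zero_mul]
      · have h0 := hGg _ hGx
        have hP : Projectivization.mk ℂ _ h0 ∈ hfin.toFinset := by
          rw [Set.Finite.mem_toFinset]
          exact ⟨h, h0, hGx, rfl⟩
        rw [map_prod, Finset.prod_eq_zero hP, mul_zero]
        obtain ⟨a, ha⟩ := Projectivization.exists_smul_eq_mk_rep ℂ _ h0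
        have hrep : ∀ i, (Projectivization.mk ℂ _ h0).rep i = (a : ℂ) * eval (x h) (g i) := by
          intro i
          rw [← ha]
          rfl
        rw [eval_lin, hrep, hrep]
        ring
  rcases hI.mem_or_mem h1 with h2 | h2
  · exact hG h2
  · obtain ⟨P, -, hP⟩ := (hI.prod_mem_iff).1 h2
    exact hij P ((hg.im _ ⟨1, hlf P⟩).2 hP)

end images

/-- The projective variety with the ideal `I` is unirational: it is dominated by a projective
space. -/
def Unirational (I : Ideal (MvPolynomial (Fin (n + 1)) ℂ)) : Prop :=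
  ∃ (m : ℕ) (g : Fin (n + 1) → MvPolynomial (Fin (m + 1)) ℂ) (δ : ℕ), DomRat ⊥ g δ I

/-- the prime numbers -/
noncomputable def prm (i : ℕ) : ℕ := Nat.nth Nat.Prime i

theorem prm_prime (i : ℕ) : (prm i).Prime := Nat.prime_nth_prime i

theorem prm_inj : Function.Injective prm := Nat.nth_injective Nat.infinite_setOfPred_prime

theorem prm_ne (i : ℕ) : (prm i : ℂ) ≠ 0 := Nat.cast_ne_zero.2 (prm_prime i).ne_zero

/-- the powers of the prime numbers -/
noncomputable def pw (m : ℕ) (h : Multiplicative ℤ) (i : Fin (m + 1)) : ℂ :=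
  (prm i : ℂ) ^ (Multiplicative.toAdd h)

theorem pw_dense {G : MvPolynomial (Fin (m + 1)) ℂ} (h : ∀ a, eval (pw m a) G = 0) : G = 0 := by
  classical
  let N : (Fin (m + 1) →₀ ℕ) → ℕ := fun u => ∏ i : Fin (m + 1), prm i ^ u i
  have hN0 : ∀ u, (N u : ℂ) ≠ 0 := fun u => Nat.cast_ne_zero.2
    (Finset.prod_ne_zero_iff.2 fun i _ => pow_ne_zero _ (prm_prime i).ne_zero)
  have hNinj : Function.Injective N := by
    intro u v huv
    ext i
    have h1 : ∀ w : Fin (m + 1) →₀ ℕ, (N w).factorization (prm i) = w i := by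
      intro w
      change (∏ j : Fin (m + 1), prm j ^ w j).factorization (prm i) = w i
      rw [Nat.factorization_prod (S := Finset.univ) (g := fun j : Fin (m + 1) => prm j ^ w j)
        fun j _ => pow_ne_zero _ (prm_prime j).ne_zero, Finsupp.finsetSum_apply,
        Finset.sum_eq_single i]
      · rw [Nat.Prime.factorization_pow (prm_prime i), Finsupp.single_eq_same]
      · intro j _ hji
        rw [Nat.Prime.factorization_pow (prm_prime j), Finsupp.single_apply, if_neg]
        intro h2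
        exact hji (Fin.ext (prm_inj h2))
      · intro h2
        exact absurd (Finset.mem_univ _) h2
    rw [← h1 u, ← h1 v, huv]
  let χ : (Fin (m + 1) →₀ ℕ) → (Multiplicative ℤ →* ℂ) := fun u =>
    (Units.coeHom ℂ).comp (zpowersHom ℂˣ (Units.mk0 _ (hN0 u)))
  have hχ : ∀ u a, χ u a = (N u : ℂ) ^ (Multiplicative.toAdd a) := by
    intro u a
    change ((Units.mk0 _ (hN0 u) ^ (Multiplicative.toAdd a) : ℂˣ) : ℂ) = _
    rw [Units.val_zpow_eq_zpow_val, Units.val_mk0]
  have hχinj : Function.Injective χ := by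
    intro u v huv
    have h1 := DFunLike.congr_fun huv (Multiplicative.ofAdd 1)
    rw [hχ, hχ, toAdd_ofAdd, zpow_one, zpow_one] at h1
    exact hNinj (by exact_mod_cast h1)
  have hli := (linearIndependent_monoidHom (Multiplicative ℤ) ℂ).comp χ hχinj
  rw [linearIndependent_iff'] at hli
  have hsum : ∑ u ∈ G.support, coeff u G • ((fun f : Multiplicative ℤ →* ℂ =>
      (f : Multiplicative ℤ → ℂ)) ∘ χ) u = 0 := by
    funext a
    rw [Finset.sum_apply, Pi.zero_apply, ← h a, eval_eq']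
    refine Finset.sum_congr rfl fun u _ => ?_
    change coeff u G * χ u a = _
    rw [hχ]
    congr 1
    change ((∏ i : Fin (m + 1), prm i ^ u i : ℕ) : ℂ) ^ _ =
      ∏ i : Fin (m + 1), ((prm i : ℂ) ^ (Multiplicative.toAdd a)) ^ u i
    push_cast
    rw [← Finset.prod_zpow]
    refine Finset.prod_congr rfl fun i _ => ?_
    rw [← zpow_natCast, ← zpow_natCast, ← zpow_mul, ← zpow_mul, mul_comm]
  ext u
  rw [coeff_zero]
  by_cases hu : u ∈ G.support
  · exact hli _ _ hsum u hu
  · exact notMem_support_iff.1 hu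

/-- the diagonal matrices -/
noncomputable def pwHom (m : ℕ) :
    Multiplicative ℤ →* Matrix.GeneralLinearGroup (Fin (m + 1)) ℂ where
  toFun a := ⟨Matrix.diagonal (pw m a), Matrix.diagonal (pw m a⁻¹), by
    rw [Matrix.diagonal_mul_diagonal, ← Matrix.diagonal_one]
    congr 1
    funext i
    change (prm i : ℂ) ^ _ * (prm i : ℂ) ^ _ = 1
    rw [← zpow_add₀ (prm_ne i), toAdd_inv, add_neg_cancel, zpow_zero], by
    rw [Matrix.diagonal_mul_diagonal, ← Matrix.diagonal_one]
    congr 1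
    funext i
    change (prm i : ℂ) ^ _ * (prm i : ℂ) ^ _ = 1
    rw [← zpow_add₀ (prm_ne i), toAdd_inv, neg_add_cancel, zpow_zero]⟩
  map_one' := by
    apply Units.ext
    change Matrix.diagonal (pw m 1) = 1
    rw [← Matrix.diagonal_one]
    congr 1
  map_mul' a b := by
    apply Units.ext
    change Matrix.diagonal (pw m (a * b)) = Matrix.diagonal (pw m a) * Matrix.diagonal (pw m b)
    rw [Matrix.diagonal_mul_diagonal]
    congr 1
    funext i
    change (prm i : ℂ) ^ _ = (prm i : ℂ) ^ _ * (prm i : ℂ) ^ _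
    rw [← zpow_add₀ (prm_ne i), toAdd_mul]

theorem pw_iter (m : ℕ) : IterVec 1 (m + 1) 1 (pw m) := by
  have h1 := iterVec_orb (n := m) (1 : Matrix (Fin (m + 1)) (Fin (m + 1)) ℂ) (pwHom m) (fun _ => 1)
  have h2 : orb (1 : Matrix (Fin (m + 1)) (Fin (m + 1)) ℂ) (pwHom m) (fun _ => 1) = pw m := by
    funext a i
    change ((1 : Matrix (Fin (m + 1)) (Fin (m + 1)) ℂ).mulVec
      ((Matrix.diagonal (pw m a)).mulVec fun _ => 1)) i = _
    rw [Matrix.one_mulVec, Matrix.mulVec_diagonal, mul_one]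
  rwa [h2] at h1

/-- **Recurrent families on unirational varieties.** -/
theorem rec_of_unirational {I : Ideal (MvPolynomial (Fin (n + 1)) ℂ)}
    {g : Fin (n + 1) → MvPolynomial (Fin (m + 1)) ℂ} {δ : ℕ} (hg : DomRat ⊥ g δ I) :
    (∃ e, IterVec 1 (m + 1) e fun h i => eval (pw m h) (g i)) ∧
      (∀ h, ∀ F ∈ I, (∃ d, F.IsHomogeneous d) → eval (fun i => eval (pw m h) (g i)) F = 0) ∧
      DenseIn I (Set.range fun h i => eval (pw m h) (g i)) := by
  refine ⟨?_, fun h F hF hFh => ?_, fun G hG h => ?_⟩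
  · obtain ⟨e, he⟩ := iterVec_image g 1
    obtain ⟨X, Y, hX, hc⟩ := he 1 (m + 1) (Multiplicative ℤ) _ (pw_iter m)
    exact ⟨e, X, Y, hX, fun j => hc j.succ⟩
  · rw [← eval_aeval']
    have h1 := (hg.im F hFh).1 hF
    rw [Ideal.mem_bot] at h1
    rw [h1, map_zero]
  · rw [hg.im G hG, Ideal.mem_bot]
    refine pw_dense fun a => ?_
    rw [eval_aeval']
    exact h _ ⟨a, rfl⟩

/-- **Exponential curves on unirational varieties.** -/
theorem exp_of_unirational {I : Ideal (MvPolynomial (Fin (n + 1)) ℂ)}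
    {g : Fin (n + 1) → MvPolynomial (Fin (m + 1)) ℂ} {δ : ℕ} (hg : DomRat ⊥ g δ I)
    (hd : PosDim I) : ∃ (r e : ℕ) (f : (Fin 1 → ℂ) → Fin (n + 1) → ℂ), ExpMap 1 r e I 1 f ∧
      DenseIn I (Set.range f) := by
  classical
  choose R E hRE using fun i => expSum_eval (g i) 1 0
  let φ : (Fin 1 → ℂ) → Fin (m + 1) → ℂ := fun z j => Complex.exp (Complex.log (prm j) * z 0)
  have hφ : ∀ a : Multiplicative ℤ, φ (fun _ => ((Multiplicative.toAdd a : ℤ) : ℂ)) = pw m a := by
    intro a
    funext j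
    change Complex.exp (Complex.log (prm j) * ((Multiplicative.toAdd a : ℤ) : ℂ)) = (prm j : ℂ) ^ _
    rw [mul_comm, Complex.exp_int_mul, Complex.exp_log (prm_ne j)]
  have hφe : ∀ j, ExpSum 1 1 0 fun z => φ z j := by
    intro j
    refine ⟨fun _ => 1, fun _ z => Complex.log (prm j) * z 0, fun _ => ⟨by
      rw [totalDegree_one], (differentiable_apply 0).const_mul _⟩, fun z => ?_⟩
    rw [Fin.sum_univ_one, map_one, one_mul]
  let f : (Fin 1 → ℂ) → Fin (n + 1) → ℂ := fun z i => eval (φ z) (g i)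
  have hdense : DenseIn I (Set.range f) := by
    obtain ⟨-, -, h3⟩ := rec_of_unirational hg
    intro G hG h
    refine h3 G hG ?_
    rintro _ ⟨a, rfl⟩
    have h4 := h _ ⟨fun _ => ((Multiplicative.toAdd a : ℤ) : ℂ), rfl⟩
    change eval (fun i => eval (φ fun _ => ((Multiplicative.toAdd a : ℤ) : ℂ)) (g i)) G = 0 at h4
    rw [hφ] at h4
    exact h4
  refine ⟨Finset.univ.sup R, Finset.univ.sup E, f, ⟨fun i => ExpSum.mono (hRE i 1 φ hφe)
    (Finset.le_sup (Finset.mem_univ i)) (Finset.le_sup (Finset.mem_univ i)), fun z F hF hFh => ?_,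
    fun z => ?_, ?_⟩, hdense⟩
  · change eval (fun i => eval (φ z) (g i)) F = 0
    rw [← eval_aeval']
    have h1 := (hg.im F hFh).1 hF
    rw [Ideal.mem_bot] at h1
    rw [h1, map_zero]
  · rw [map_one]
    exact one_ne_zero
  · by_contra hcon
    push Not at hcon
    obtain ⟨z0, i0, h0⟩ : ∃ z i, f z i ≠ 0 := by
      by_contra hz
      push Not at hz
      obtain ⟨i, hi⟩ := hg.ne
      apply hi
      rw [Ideal.mem_bot]
      refine pw_dense fun a => ?_
      have h5 := hz (fun _ => ((Multiplicative.toAdd a : ℤ) : ℂ)) i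
      change eval (φ fun _ => ((Multiplicative.toAdd a : ℤ) : ℂ)) (g i) = 0 at h5
      rw [hφ] at h5
      exact h5
    obtain ⟨i, j, hij⟩ := hd (f z0) fun h1 => h0 (congrFun h1 i0)
    apply hij
    refine hdense _ ⟨1, lin_homog _ _ _ _⟩ ?_
    rintro _ ⟨z, rfl⟩
    rw [map_sub, map_mul, map_mul, eval_C, eval_C, eval_X, eval_X]
    linear_combination hcon z z0 j i

end Pool.Agent.V1153.UR
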