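import Pool.Agent.V1153.UR.Num

/-!
Rational curves on varieties over number fields: independence of the embedding, families given by
iterated recurrences.
-/

set_option autoImplicit false

namespace Pool.Agent.V1153.UR

open MvPolynomial Pool.Agent.V1153.UG Pool.Agent.V1153.IT Pool.Agent.V1153.XS
open Pool.Agent.Y377.ST (IterVec ptsOff)

variable {n : ℕ} {k : Type} [Field k] [NumberField k]

/-- a nonconstant curve over a number field, not contained in `G = 0` -/
def NumCurve (FF : Set (MvPolynomial (Fin (n + 1)) k)) (G : MvPolynomial (Fin (n + 1)) k) : Prop :=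
  ∃ (K : Type) (_ : Field K) (_ : NumberField K) (ι : k →+* K) (c : Fin (n + 1) → Polynomial K),
    (∀ F ∈ FF, eval₂ (Polynomial.C.comp ι) c F = 0) ∧
    (∃ i j a b, (c i).eval a * (c j).eval b ≠ (c j).eval a * (c i).eval b) ∧
    eval₂ ι (fun i => (c i).eval 1) G ≠ 0

omit [NumberField k] in
theorem eval_poly {L : Type} [Field L] (ι : k →+* L) (c : Fin (n + 1) → Polynomial L)
    (F : MvPolynomial (Fin (n + 1)) k) (z : L) :
    (eval₂ (Polynomial.C.comp ι) c F).eval z = eval₂ ι (fun j => (c j).eval z) F := by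
  have h1 := hom_eval₂ F (Polynomial.C.comp ι) (Polynomial.evalRingHom z) c
  rw [Polynomial.coe_evalRingHom] at h1
  rw [h1]
  congr 1
  ext a
  simp

/-- curves over the complex numbers give curves over number fields -/
theorem numCurve_of {σ : k →+* ℂ} {FF : Set (MvPolynomial (Fin (n + 1)) k)}
    {G : MvPolynomial (Fin (n + 1)) k} (h : ¬ RatIn σ FF G) : NumCurve FF G := by
  unfold RatIn at h
  push Not at h
  obtain ⟨q, hq, ⟨s, t, i, j, hne⟩, z₀, hz₀⟩ := h
  -- a good parameter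
  obtain ⟨l, hl⟩ : ∃ l, q l ≠ 0 := by
    by_contra h0
    push Not at h0
    apply hne
    rw [h0 i, h0 j]
  have hG0 : eval₂ (Polynomial.C.comp σ) q G ≠ 0 := by
    intro h0
    apply hz₀
    rw [eval_map, ← eval_poly, h0, Polynomial.eval_zero]
  obtain ⟨z, hz⟩ : ∃ z, (eval₂ (Polynomial.C.comp σ) q G * q l).eval z ≠ 0 := by
    by_contra hcon
    push Not at hcon
    exact mul_ne_zero hG0 hl (Polynomial.funext fun z => by rw [hcon, Polynomial.eval_zero])
  rw [Polynomial.eval_mul, eval_poly] at hz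
  have hzG := left_ne_zero_of_mul hz
  have hzl := right_ne_zero_of_mul hz
  let _ : Algebra k ℂ := σ.toAlgebra
  let p : Fin (n + 1) → Polynomial ℂ := fun j => (q j).comp (Polynomial.X + Polynomial.C (z - 1))
  have hp : ∀ j w, (p j).eval w = (q j).eval (w + (z - 1)) := by
    intro j w
    simp [p, Polynomial.eval_comp]
  have hp1 : ∀ j, (p j).eval 1 = (q j).eval z := by
    intro j
    rw [hp, show (1 : ℂ) + (z - 1) = z by ring]
  have hF : ∀ F ∈ FF, aeval p F = 0 := by
    intro F hF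
    apply Polynomial.funext
    intro w
    have h1 := hq F hF (w + (z - 1))
    rw [eval_map] at h1
    have h2 : aeval p F = eval₂ (Polynomial.C.comp σ) p F := rfl
    rw [h2, eval_poly, Polynomial.eval_zero, ← h1]
    congr 1
    funext j
    exact hp j w
  set N : ℕ := Finset.univ.sup (fun i => (p i).natDegree) + 1 with hN
  have hNc : ∀ i m, N ≤ m → (p i).coeff m = 0 := by
    intro i m hm
    apply Polynomial.coeff_eq_zero_of_natDegree_lt
    have := Finset.le_sup (f := fun i => (p i).natDegree) (Finset.mem_univ i)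
    omega
  have hc : ∃ i j, p i * Polynomial.C ((p j).eval 1) ≠ p j * Polynomial.C ((p i).eval 1) := by
    by_contra hcon
    push Not at hcon
    apply hne
    have key : ∀ i w, (q i).eval w * (q l).eval z = (q l).eval w * (q i).eval z := by
      intro i w
      have h1 := congrArg (Polynomial.eval (w - (z - 1))) (hcon i l)
      rw [Polynomial.eval_mul, Polynomial.eval_mul, Polynomial.eval_C, Polynomial.eval_C, hp1, hp1,
        hp, hp, sub_add_cancel] at h1
      exact h1
    apply mul_right_cancel₀ hzl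
    apply mul_right_cancel₀ hzl
    calc (q i).eval s * (q j).eval t * (q l).eval z * (q l).eval z
        = ((q i).eval s * (q l).eval z) * ((q j).eval t * (q l).eval z) := by ring
      _ = ((q l).eval s * (q i).eval z) * ((q l).eval t * (q j).eval z) := by rw [key, key]
      _ = ((q l).eval s * (q j).eval z) * ((q l).eval t * (q i).eval z) := by ring
      _ = ((q j).eval s * (q l).eval z) * ((q i).eval t * (q l).eval z) := by rw [key, key]
      _ = (q j).eval s * (q i).eval t * (q l).eval z * (q l).eval z := by ring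
  have hG1 : aeval (fun i => (p i).eval 1) G ≠ 0 := by
    have h2 : aeval (fun i => (p i).eval 1) G = eval₂ σ (fun i => (p i).eval 1) G := rfl
    rw [h2]
    simp only [hp1]
    exact hzG
  obtain ⟨K, iK, iN, iAK, w, h1, h2, h3⟩ := Pool.Agent.TH409.SH.specialise k ℂ p FF hF N hNc hc
    G hG1
  refine ⟨K, iK, iN, algebraMap k K, _, fun F hFF => ?_, Pool.Agent.TH409.SH.nonconst_of _ h2, h3⟩
  exact h1 F hFF

/-- extension of embeddings -/
theorem ext_emb (σ : k →+* ℂ) {K : Type} [Field K] [NumberField K] (ι : k →+* K) :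
    ∃ τ : K →+* ℂ, τ.comp ι = σ := by
  let _ : Algebra k K := ι.toAlgebra
  have : Module.Finite k K := Module.Finite.of_restrictScalars_finite ℚ k K
  let _ : Algebra k ℂ := σ.toAlgebra
  let τ : K →ₐ[k] ℂ := IsAlgClosed.lift
  exact ⟨τ.toRingHom, τ.comp_algebraMap⟩

omit [NumberField k] in
theorem curve_map {σ : k →+* ℂ} {K : Type} [Field K] {ι : k →+* K} {τ : K →+* ℂ}
    (hτ : τ.comp ι = σ) (c : Fin (n + 1) → Polynomial K) (F : MvPolynomial (Fin (n + 1)) k) (z : K) :
    eval (fun j => ((c j).map τ).eval (τ z)) (map σ F) =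
      τ ((eval₂ (Polynomial.C.comp ι) c F).eval z) := by
  rw [eval_poly, eval_map]
  have h1 := hom_eval₂ F ι τ fun j => (c j).eval z
  rw [h1, hτ]
  congr 1
  funext j
  rw [Polynomial.eval_map, Polynomial.eval₂_at_apply]

omit [NumberField k] in
theorem curve_map_zero {σ : k →+* ℂ} {K : Type} [Field K] {ι : k →+* K} {τ : K →+* ℂ}
    (hτ : τ.comp ι = σ) {c : Fin (n + 1) → Polynomial K} {F : MvPolynomial (Fin (n + 1)) k}
    (h : eval₂ (Polynomial.C.comp ι) c F = 0) (z : ℂ) :
    eval (fun j => ((c j).map τ).eval z) (map σ F) = 0 := by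
  rw [eval_map, ← eval_poly]
  have h4 := congrArg (Polynomial.mapRingHom τ) h
  rw [map_zero, MvPolynomial.hom_eval₂] at h4
  have h5 : (Polynomial.mapRingHom τ).comp (Polynomial.C.comp ι) = Polynomial.C.comp σ := by
    rw [← hτ]
    refine RingHom.ext fun x => ?_
    simp
  rw [h5] at h4
  have h6 : eval₂ (Polynomial.C.comp σ) (fun j => (c j).map τ) F = 0 := h4
  rw [h6, Polynomial.eval_zero]

/-- families -/
theorem fam_bound (n D : ℕ) : ∃ B : ℕ → ℕ → ℕ → ℕ, ∀ (k : Type) [Field k] [NumberField k]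
    (σ : k →+* ℂ) (FF : Set (MvPolynomial (Fin (n + 1)) k)) (G : MvPolynomial (Fin (n + 1)) k),
    (∀ F ∈ FF, ∃ a ≤ D, F.IsHomogeneous a) → (∃ a ≤ D, G.IsHomogeneous a) → RatIn σ FF G →
      FamBound FF G B := by
  choose B hB using fun s r e => arith_family n D s r e
  refine ⟨B, fun k _ _ σ FF G hFF hG hR s r e L _ ι τ H _ x hx hit => ?_⟩
  have hR' : RatIn (τ.comp ι) FF G := by
    by_contra hcon
    obtain ⟨K, iK, iN, ι', c, h1, ⟨i, j, a, b, hab⟩, h3⟩ := numCurve_of hcon
    obtain ⟨τ', hτ'⟩ := ext_emb σ ι'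
    have h4 := hR (fun j => (c j).map τ') (fun F hF z => curve_map_zero hτ' (h1 F hF) z)
      ⟨τ' a, τ' b, i, j, fun h5 => hab ?_⟩ (τ' 1)
    · rw [curve_map hτ', map_eq_zero, eval_poly] at h4
      exact h3 h4
    · simp only [Polynomial.eval_map, Polynomial.eval₂_at_apply, ← map_mul] at h5
      exact τ'.injective h5
  have hmm : map τ '' (map ι '' FF) = map (τ.comp ι) '' FF := by
    rw [Set.image_image]
    simp only [map_map]
  refine hB s r e L τ (map ι '' FF) 1 (map ι G) ?_ ⟨0, Nat.zero_le _, isHomogeneous_one _ _⟩ ?_ ?_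
    H x ?_ ⟨fun h => ?_, ?_⟩
  · rintro _ ⟨F, hF, rfl⟩
    obtain ⟨a, ha, hFa⟩ := hFF F hF
    exact ⟨a, ha, hFa.map ι⟩
  · obtain ⟨a, ha, hGa⟩ := hG
    exact ⟨a, ha, hGa.map ι⟩
  · rw [hmm, map_one, map_map]
    exact vanGm_of (fun F hF => by
      obtain ⟨a, -, ha⟩ := hFF F hF
      exact ⟨a, ha⟩) hR' _
  · rintro h _ ⟨F, hF, rfl⟩
    exact hx h F hF
  · rw [map_one]
    exact one_ne_zero
  · obtain ⟨X, Y, hX, hc⟩ := hit
    refine ⟨X, Y, hX, fun j => Fin.cases ?_ (fun j => ?_) j⟩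
    · obtain ⟨d, hd⟩ := PevFn.const (ι := Pool.Agent.Y377.ST.Ix s r) e (1 : L)
      refine ⟨d, fun h => ?_⟩
      change (eval (x h) (1 : MvPolynomial (Fin (n + 1)) L))⁻¹ = _
      rw [map_one, inv_one]
      exact hd _
    · obtain ⟨d, hd⟩ := hc j
      exact ⟨d, fun h => hd h⟩

omit [NumberField k] in
theorem seq_of_fam {σ : k →+* ℂ} {FF : Set (MvPolynomial (Fin (n + 1)) k)}
    {G : MvPolynomial (Fin (n + 1)) k} {B : ℕ → ℕ → ℕ → ℕ} (h : FamBound FF G B) :
    SeqFinite σ FF G := fun e _ _ _ x _ hx hit =>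
  Set.finite_of_encard_le_coe (h 1 1 e ℂ σ (RingHom.id ℂ) _ x hx hit)

theorem rat_of_seq {σ : k →+* ℂ} {FF : Set (MvPolynomial (Fin (n + 1)) k)}
    {G : MvPolynomial (Fin (n + 1)) k} (h : SeqFinite σ FF G) : RatIn σ FF G := by
  by_contra hcon
  obtain ⟨K, iK, iN, ι, c, h1, ⟨i, j, a, b, hab⟩, h3⟩ := numCurve_of hcon
  obtain ⟨τ, hτ⟩ := ext_emb σ ι
  have hF : ∀ F ∈ FF, ∀ z, eval (fun j => ((c j).map τ).eval z) (map σ F) = 0 :=
    fun F hF z => curve_map_zero hτ (h1 F hF) z
  obtain ⟨N, hN⟩ := gmBdd_of (q := fun j => (c j).map τ) hF ⟨τ a, τ b, i, j, fun h5 => hab (by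
    simp only [Polynomial.eval_map, Polynomial.eval₂_at_apply, ← map_mul] at h5
    exact τ.injective h5)⟩
  have hG1 : eval (fun j => ((c j).map τ).eval 1) (map σ G) ≠ 0 := by
    have h4 := curve_map hτ c G 1
    rw [map_one] at h4
    rw [h4, Ne, map_eq_zero, eval_poly]
    exact h3
  let τ' : K →ₐ[ℚ] ℂ := τ.toRatAlgHom
  have hτ' : ∀ a, τ' a = τ a := fun a => rfl
  have hmem : ∀ a : K, τ a ∈ τ'.fieldRange := fun a => ⟨a, rfl⟩
  have hfd : FiniteDimensional ℚ τ'.fieldRange :=
    (AlgEquiv.ofInjectiveField τ').toLinearEquiv.finiteDimensional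
  refine curve_infinite hN hG1 (h N τ'.fieldRange hfd (fun a => ?_) _ (fun h j => ?_)
    (fun h F hFF => hF F hFF _) ?_)
  · rw [← hτ]
    exact hmem (ι a)
  · have h2 : (2 : ℂ) ∈ τ'.fieldRange := ofNat_mem _ 2
    have h6 : tw h ∈ τ'.fieldRange := zpow_mem h2 _
    obtain ⟨u, hu⟩ := h6
    have hu' : τ u = tw h := hu
    rw [← hu', Polynomial.eval_map, Polynomial.eval₂_at_apply]
    exact hmem _
  · have h1 := iter_curve (D := 0) le_rfl (isHomogeneous_one _ _) hN
    rw [zero_mul, zero_add] at h1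
    obtain ⟨X, Y, hX, hc⟩ := h1.2
    exact ⟨X, Y, hX, fun j => hc j.succ⟩

end Pool.Agent.V1153.UR
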