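import Pool.Agent.V1153.UR.Spec
import Pool.Agent.V1153.UR.NumB

/-!
Hyperbolicity and rational points: the restricted equivalence over number fields.
-/

set_option autoImplicit false

namespace Pool.Agent.V1153.UR

open MvPolynomial Pool.Agent.V1153.UG Pool.Agent.V1153.IT Pool.Agent.V1153.XS
open Pool.Agent.Y377.ST (IterVec ptsOff)

variable {n : ℕ} {k : Type} [Field k]

/-- For all number fields `L` which contain `k` there are only finitely many `L`-rational points of
the variety with the equations `FF` outside of `G = 0`. -/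
def PointsFinite (FF : Set (MvPolynomial (Fin (n + 1)) k)) (G : MvPolynomial (Fin (n + 1)) k) :
    Prop :=
  ∀ (L : Type) [Field L] [NumberField L] (ι : k →+* L),
    {P : Projectivization L (Fin (n + 1) → L) | (∀ F ∈ FF, eval P.rep (map ι F) = 0) ∧
      eval P.rep (map ι G) ≠ 0}.Finite

theorem ratIn_iff {σ : k →+* ℂ} {FF : Set (MvPolynomial (Fin (n + 1)) k)}
    (hom : ∀ F ∈ FF, ∃ a, F.IsHomogeneous a) {G : MvPolynomial (Fin (n + 1)) k} :
    RatIn σ FF G ↔ InGm (map σ '' FF) 1 (map σ G) := by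
  constructor
  · exact fun h N P hP t => vanGm_of hom h N P hP t
  · intro h q hq hnc z
    obtain ⟨N, hN⟩ := gmBdd_of hq hnc
    exact h N q hN z

theorem homog_smul {L : Type} [Field L] {F : MvPolynomial (Fin (n + 1)) L} {a : ℕ}
    (hF : F.IsHomogeneous a) (c : L) (x : Fin (n + 1) → L) :
    eval (fun j => c * x j) F = c ^ a * eval x F := by
  rw [eval_eq, eval_eq, Finset.mul_sum]
  refine Finset.sum_congr rfl fun u hu => ?_
  have h1 := hF (mem_support_iff.1 hu)
  rw [Finsupp.weight_apply, Finsupp.sum] at h1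
  simp only [smul_eq_mul, Pi.one_apply, mul_one] at h1
  simp only [mul_pow]
  rw [Finset.prod_mul_distrib, Finset.prod_pow_eq_pow_sum, h1]
  ring

theorem seq_of_points {σ : k →+* ℂ} {FF : Set (MvPolynomial (Fin (n + 1)) k)}
    (hom : ∀ F ∈ FF, ∃ a, F.IsHomogeneous a) {G : MvPolynomial (Fin (n + 1)) k} {γ : ℕ}
    (hG : G.IsHomogeneous γ) (h : PointsFinite FF G) : SeqFinite σ FF G := by
  classical
  intro e L hL hσ x hxL hx _
  have : NumberField L := { to_charZero := inferInstance, to_finiteDimensional := hL }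
  let ι : k →+* L := σ.codRestrict L hσ
  have hι : ∀ a, ((ι a : L) : ℂ) = σ a := fun a => rfl
  have hcomp : (algebraMap L ℂ).comp ι = σ := RingHom.ext fun a => rfl
  have hfin := h L ι
  let x' : Multiplicative ℤ → Fin (n + 1) → L := fun h j => ⟨x h j, hxL h j⟩
  have hxx : ∀ h j, algebraMap L ℂ (x' h j) = x h j := fun h j => rfl
  have hev : ∀ (F : MvPolynomial (Fin (n + 1)) k) h,
      eval (x h) (map σ F) = algebraMap L ℂ (eval (x' h) (map ι F)) := by
    intro F h
    rw [eval_map, eval_map]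
    have h1 := hom_eval₂ F ι (algebraMap L ℂ) (x' h)
    rw [h1, hcomp]
    rfl
  let f : Projectivization L (Fin (n + 1) → L) → Projectivization ℂ (Fin (n + 1) → ℂ) := fun P =>
    if h0 : (fun j => algebraMap L ℂ (P.rep j)) ≠ 0 then Projectivization.mk ℂ _ h0 else
      Projectivization.mk ℂ (fun _ => 1) (fun h1 => one_ne_zero (congrFun h1 0))
  refine (hfin.image f).subset ?_
  rintro p ⟨h, h0, hGh, rfl⟩
  have h0' : x' h ≠ 0 := by
    intro h1
    apply h0
    funext j
    rw [← hxx, h1, Pi.zero_apply, map_zero]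
    rfl
  obtain ⟨a, ha⟩ := Projectivization.exists_smul_eq_mk_rep L (x' h) h0'
  have ha' : (Projectivization.mk L (x' h) h0').rep = fun j => (a : L) * x' h j := by
    rw [← ha]
    rfl
  refine ⟨Projectivization.mk L (x' h) h0', ⟨fun F hF => ?_, ?_⟩, ?_⟩
  · obtain ⟨b, hb⟩ := hom F hF
    rw [ha', homog_smul (hb.map ι)]
    have h1 := hx h F hF
    rw [hev, map_eq_zero] at h1
    rw [h1, mul_zero]
  · rw [ha', homog_smul (hG.map ι)]
    refine mul_ne_zero (pow_ne_zero _ a.ne_zero) fun h1 => hGh ?_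
    have h2 : aeval (x h) (map σ G) = eval (x h) (map σ G) := by
      rw [← coe_aeval_eq_eval]
      rfl
    rw [h2, hev, h1, map_zero]
  · have h1 : (fun j => algebraMap L ℂ ((Projectivization.mk L (x' h) h0').rep j)) =
        fun j => algebraMap L ℂ (a : L) * x h j := by
      funext j
      rw [ha', map_mul, hxx]
    have h2 : (fun j => algebraMap L ℂ ((Projectivization.mk L (x' h) h0').rep j)) ≠ 0 := by
      rw [h1]
      intro h3
      apply h0
      funext j
      have h4 := congrFun h3 j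
      change algebraMap L ℂ (a : L) * x h j = 0 at h4
      exact (mul_eq_zero.1 h4).resolve_left
        ((map_ne_zero_iff _ (algebraMap L ℂ).injective).2 a.ne_zero)
    change f _ = _
    have h3 : f (Projectivization.mk L (x' h) h0') = Projectivization.mk ℂ _ h2 := dif_pos h2
    rw [h3, Projectivization.mk_eq_mk_iff']
    exact ⟨algebraMap L ℂ (a : L), by rw [h1]; rfl⟩

theorem ratIn_all (n D : ℕ) : ∃ B : ℕ → ℕ → ℕ → ℕ, ∀ (k : Type) [Field k] [NumberField k]
    (σ : k →+* ℂ) (FF : Set (MvPolynomial (Fin (n + 1)) k)) (G : MvPolynomial (Fin (n + 1)) k),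
    (∀ F ∈ FF, ∃ a ≤ D, F.IsHomogeneous a) → (∃ a ≤ D, G.IsHomogeneous a) →
      List.TFAE [RatIn σ FF G, ∀ τ : k →+* ℂ, RatIn τ FF G,
        InFinite (map σ '' FF) 1 (map σ G), InDFin (map σ '' FF) 1 (map σ G),
        InPicardFinite (map σ '' FF) 1 (map σ G), InExp (map σ '' FF) 1 (map σ G),
        InRuled (map σ '' FF) 1 (map σ G), InPtd (map σ '' FF) 1 (map σ G),
        FamBound FF G B, SeqFinite σ FF G] ∧
      (BrodyIn σ FF G ∨ PointsFinite FF G → RatIn σ FF G) := by
  obtain ⟨B, hB⟩ := fam_bound n D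
  obtain ⟨B', hB'⟩ := spec_tfae n D
  refine ⟨B, fun k _ _ σ FF G hFF hG => ?_⟩
  have hom : ∀ F ∈ FF, ∃ a, F.IsHomogeneous a := fun F hF => by
    obtain ⟨a, -, ha⟩ := hFF F hF
    exact ⟨a, ha⟩
  obtain ⟨γ, hγ, hGγ⟩ := id hG
  obtain ⟨hT, -⟩ := hB' (map σ '' FF) 1 (map σ G) 0 (by
    rintro _ ⟨F, hF, rfl⟩
    obtain ⟨a, ha, hFa⟩ := hFF F hF
    exact ⟨a, ha, hFa.map σ⟩) (Nat.zero_le _) (isHomogeneous_one _ _) ⟨γ, hγ, hGγ.map σ⟩
  refine ⟨?_, ?_⟩
  · tfae_have 1 ↔ 3 := (ratIn_iff hom).trans (hT.out 0 1)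
    tfae_have 1 ↔ 4 := (ratIn_iff hom).trans (hT.out 0 2)
    tfae_have 1 ↔ 5 := (ratIn_iff hom).trans (hT.out 0 3)
    tfae_have 1 ↔ 6 := (ratIn_iff hom).trans (hT.out 0 4)
    tfae_have 1 ↔ 7 := (ratIn_iff hom).trans (hT.out 0 5)
    tfae_have 1 ↔ 8 := (ratIn_iff hom).trans (hT.out 0 6)
    tfae_have 1 → 9 := hB k σ FF G hFF hG
    tfae_have 9 → 2 := fun h τ => rat_of_seq (seq_of_fam h)
    tfae_have 2 → 1 := fun h => h σ
    tfae_have 9 → 10 := seq_of_fam
    tfae_have 10 → 1 := rat_of_seq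
    tfae_finish
  · rintro (h | h)
    · exact brody_rat hom hGγ h
    · exact rat_of_seq (seq_of_points hom hGγ h)

end Pool.Agent.V1153.UR
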