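import Pool.Agent.V1153.UR.Rec

/-!
Families of integral points given by iterated recurrences and maps to varieties which are not
covered by curves of the punctured line.
-/

set_option autoImplicit false

namespace Pool.Agent.V1153.UR

open MvPolynomial Pool.Agent.V1153.UG Pool.Agent.V1153.IT
open Pool.Agent.Y377.ST (IterVec ptsOff)

variable {n m : ℕ}

/-- The forms `g` of degree `δ` define a dominant rational map from the complement of `Q' = 0` in the
projective variety with the ideal `I` to the complement of `Q = 0` in the projective variety with the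
ideal `J`, such that the values of `Q (g)` are invertible on the complement of `Q' = 0`. -/
structure DomMor (I : Ideal (MvPolynomial (Fin (n + 1)) ℂ)) (Q' : MvPolynomial (Fin (n + 1)) ℂ)
    (g : Fin (m + 1) → MvPolynomial (Fin (n + 1)) ℂ) (δ : ℕ)
    (J : Ideal (MvPolynomial (Fin (m + 1)) ℂ)) (Q : MvPolynomial (Fin (m + 1)) ℂ) : Prop where
  rat : DomRat I g δ J
  inv : ∃ (a c : ℕ) (A : MvPolynomial (Fin (n + 1)) ℂ),
    (aeval g Q * A - Q' ^ a).IsHomogeneous c ∧ aeval g Q * A - Q' ^ a ∈ I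

theorem domMor_id {J : Ideal (MvPolynomial (Fin (m + 1)) ℂ)} {Q : MvPolynomial (Fin (m + 1)) ℂ}
    (h : ∃ i, (X i : MvPolynomial (Fin (m + 1)) ℂ) ∉ J) : DomMor J Q X 1 J Q := by
  refine ⟨domRat_id h, 1, 0, 1, ?_, ?_⟩
  · rw [aeval_X_left, AlgHom.id_apply, mul_one, pow_one, sub_self]
    exact isHomogeneous_zero _ _ _
  · rw [aeval_X_left, AlgHom.id_apply, mul_one, pow_one, sub_self]
    exact J.zero_mem

theorem eval_cons {L : Type} [Field L] (u : L) (x : Fin (n + 1) → L)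
    (F : MvPolynomial (Fin (n + 1)) L) :
    eval (Fin.cons u x : Fin (n + 2) → L) (rename Fin.succ F) = eval x F := by
  rw [eval_rename]
  congr 2

/-- **One closed set and one bound for the images of integral points.** -/
theorem img_bound_log {I : Ideal (MvPolynomial (Fin (n + 1)) ℂ)} (hI : I.IsPrime)
    {Q' : MvPolynomial (Fin (n + 1)) ℂ}
    {J : Ideal (MvPolynomial (Fin (m + 1)) ℂ)} (hJ : J.IsPrime)
    {Q : MvPolynomial (Fin (m + 1)) ℂ} {q : ℕ} (hQ : Q.IsHomogeneous q) (hthin : GmThin J Q)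
    {g : Fin (m + 1) → MvPolynomial (Fin (n + 1)) ℂ} {δ : ℕ} (hg : DomMor I Q' g δ J Q)
    (s r e : ℕ) :
    ∃ (G : MvPolynomial (Fin (n + 1)) ℂ) (B : ℕ), (∃ d, G.IsHomogeneous d) ∧ G ∉ I ∧
      (∀ v, eval v G ≠ 0 → (fun i => eval v (g i)) ≠ 0) ∧
      ∀ (H : Type) [Group H] (x : H → Fin (n + 1) → ℂ),
        (∀ h, ∀ F ∈ I, (∃ d, F.IsHomogeneous d) → eval (x h) F = 0) → IterOff s r e Q' x →
          (imgOff g G x).encard ≤ (B : ℕ∞) := by
  classical
  obtain ⟨i0, hi0⟩ := hg.rat.ne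
  obtain ⟨a, c, A, hAh, hAI⟩ := hg.inv
  obtain ⟨e', he'⟩ := iterVec_image (n := n + 1) (m := m + 1)
    (Fin.cons (rename Fin.succ A * X 0 ^ a) fun i => rename Fin.succ (g i) :
      Fin (m + 2) → MvPolynomial (Fin (n + 2)) ℂ) e
  obtain ⟨G, B, ⟨d, hd⟩, hG, hall⟩ := arith_thin hJ hQ hthin s r e'
  have hq2 : (aeval g G).IsHomogeneous (δ * d) := hd.aeval g fun i => hg.rat.hom i
  refine ⟨aeval g G * g i0, B, ⟨_, hq2.mul (hg.rat.hom i0)⟩, fun h1 => ?_, fun v hv h0 => ?_,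
    fun H _ x hx hit => ?_⟩
  · rcases hI.mem_or_mem h1 with h2 | h2
    · exact hG ((hg.rat.im G ⟨d, hd⟩).2 h2)
    · exact hi0 h2
  · rw [map_mul] at hv
    exact right_ne_zero_of_mul hv (congrFun h0 i0)
  have hA : ∀ h, eval (fun i => eval (x h) (g i)) Q * eval (x h) A = eval (x h) Q' ^ a := by
    intro h
    have h1 := hx h _ hAI ⟨c, hAh⟩
    rw [map_sub, map_mul, map_pow, eval_aeval', sub_eq_zero] at h1
    exact h1
  have hQ0 : ∀ h, eval (fun i => eval (x h) (g i)) Q ≠ 0 := by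
    intro h
    have h1 := pow_ne_zero a (hit.1 h)
    rw [← hA h] at h1
    exact left_ne_zero_of_mul h1
  refine (Set.encard_le_encard ?_).trans
    (hall H (fun h i => eval (x h) (g i)) (fun h F hF hFh => ?_) ⟨hQ0, ?_⟩)
  · rintro P ⟨h, h0, h1, rfl⟩
    refine ⟨h, h0, ?_, rfl⟩
    rw [map_mul, eval_aeval'] at h1
    have h2 := left_ne_zero_of_mul h1
    rw [← MvPolynomial.coe_aeval_eq_eval] at h2
    exact h2
  · obtain ⟨b, hb⟩ := hFh
    rw [← eval_aeval']
    exact hx h _ ((hg.rat.im F ⟨b, hb⟩).1 hF) ⟨_, hb.aeval g fun i => hg.rat.hom i⟩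
  · obtain ⟨X', Y', hX', hc⟩ := he' s r H _ hit.2
    refine ⟨X', Y', hX', fun j => ?_⟩
    obtain ⟨c', hc'⟩ := hc j.succ
    refine ⟨c', fun h => ?_⟩
    rw [← hc' h]
    refine Fin.cases ?_ (fun i => ?_) j
    · change (eval (fun i => eval (x h) (g i)) Q)⁻¹ =
        eval (Fin.cons (eval (x h) Q')⁻¹ (x h) : Fin (n + 2) → ℂ) (rename Fin.succ A * X 0 ^ a)
      rw [map_mul, eval_cons, map_pow, eval_X, Fin.cons_zero, inv_pow, ← hA h, mul_inv]
      have hA0 : eval (x h) A ≠ 0 := by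
        have h1 := pow_ne_zero a (hit.1 h)
        rw [← hA h] at h1
        exact right_ne_zero_of_mul h1
      field_simp
    · change eval (x h) (g i) =
        eval (Fin.cons (eval (x h) Q')⁻¹ (x h) : Fin (n + 2) → ℂ) (rename Fin.succ (g i))
      rw [eval_cons]

/-- There is a proper closed subset of the complement of `Q = 0` in the projective variety with the
ideal `J` outside of which there are only finitely many integral points over each finitely generated
ring. -/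
def PseudoArithmetic (J : Ideal (MvPolynomial (Fin (m + 1)) ℂ)) (Q : MvPolynomial (Fin (m + 1)) ℂ) :
    Prop :=
  ∃ G : MvPolynomial (Fin (m + 1)) ℂ, (∃ d, G.IsHomogeneous d) ∧ G ∉ J ∧ ∀ T : Finset ℂ,
    {P : Projectivization ℂ (Fin (m + 1) → ℂ) | ∃ (v : Fin (m + 1) → ℂ) (h0 : v ≠ 0),
      (∀ j, v j ∈ Algebra.adjoin ℤ (T : Set ℂ)) ∧
      (∀ F ∈ J, (∃ d, F.IsHomogeneous d) → eval v F = 0) ∧
      eval v Q ≠ 0 ∧ (eval v Q)⁻¹ ∈ Algebra.adjoin ℤ (T : Set ℂ) ∧ eval v G ≠ 0 ∧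
      P = Projectivization.mk ℂ v h0}.Finite

/-- For every `e` there is one proper closed subset outside of which the sequences of integral points
over finitely generated rings, given by polynomials of degree at most `e` in `u ^ h` and `u ^ (-h)`,
have only finitely many points. -/
def IntPowersFinite (J : Ideal (MvPolynomial (Fin (m + 1)) ℂ)) (Q : MvPolynomial (Fin (m + 1)) ℂ) :
    Prop :=
  ∀ e : ℕ, ∃ G : MvPolynomial (Fin (m + 1)) ℂ, (∃ d, G.IsHomogeneous d) ∧ G ∉ J ∧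
    ∀ (T : Finset ℂ) (x : Multiplicative ℤ → Fin (m + 1) → ℂ),
      (∀ h j, x h j ∈ Algebra.adjoin ℤ (T : Set ℂ)) →
      (∀ h, (eval (x h) Q)⁻¹ ∈ Algebra.adjoin ℤ (T : Set ℂ)) →
      (∀ h, ∀ F ∈ J, (∃ d, F.IsHomogeneous d) → eval (x h) F = 0) → IterOff 1 1 e Q x →
        (ptsOff G x).Finite

theorem PseudoArithmetic.powers {J : Ideal (MvPolynomial (Fin (m + 1)) ℂ)}
    {Q : MvPolynomial (Fin (m + 1)) ℂ} (h : PseudoArithmetic J Q) : IntPowersFinite J Q := by
  obtain ⟨G, hG, hGJ, hall⟩ := h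
  refine fun e => ⟨G, hG, hGJ, fun T x hxT hxQ hx hit => (hall T).subset ?_⟩
  rintro P ⟨h, h0, h1, rfl⟩
  refine ⟨x h, h0, hxT h, hx h, hit.1 h, hxQ h, ?_, rfl⟩
  rw [← MvPolynomial.coe_aeval_eq_eval]
  exact h1

theorem IntPowersFinite.gmThin {J : Ideal (MvPolynomial (Fin (m + 1)) ℂ)}
    {Q : MvPolynomial (Fin (m + 1)) ℂ} {q : ℕ} (hQ : Q.IsHomogeneous q)
    (h : IntPowersFinite J Q) : GmThin J Q := by
  classical
  intro N
  obtain ⟨G, hG, hGJ, hall⟩ := h (q * N + N)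
  refine ⟨G, hG, hGJ, fun P hP t => ?_⟩
  by_contra ht
  obtain ⟨c, κ, hc, hκ⟩ := hP.off
  set T : Finset ℂ := insert (1 / 2 : ℂ) (insert c⁻¹
    (Finset.univ.biUnion fun j => (Finset.range (N + 1)).image fun i => (P j).coeff i)) with hT
  have hmem : ∀ j i, i < N + 1 → (P j).coeff i ∈ Algebra.adjoin ℤ (T : Set ℂ) := by
    intro j i hi
    apply Algebra.subset_adjoin
    rw [hT, Finset.mem_coe, Finset.mem_insert, Finset.mem_insert, Finset.mem_biUnion]
    exact Or.inr (Or.inr ⟨j, Finset.mem_univ _, Finset.mem_image_of_mem _ (Finset.mem_range.2 hi)⟩)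
  have hhalf : (1 / 2 : ℂ) ∈ Algebra.adjoin ℤ (T : Set ℂ) := by
    apply Algebra.subset_adjoin
    rw [hT, Finset.mem_coe]
    exact Finset.mem_insert_self _ _
  have hcinv : c⁻¹ ∈ Algebra.adjoin ℤ (T : Set ℂ) := by
    apply Algebra.subset_adjoin
    rw [hT, Finset.mem_coe]
    exact Finset.mem_insert_of_mem (Finset.mem_insert_self _ _)
  have htwo : (2 : ℂ) ∈ Algebra.adjoin ℤ (T : Set ℂ) := ofNat_mem _ 2
  have htw : ∀ a : ℤ, (2 : ℂ) ^ a ∈ Algebra.adjoin ℤ (T : Set ℂ) := by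
    intro a
    rcases Int.eq_nat_or_neg a with ⟨b, rfl | rfl⟩
    · rw [zpow_natCast]
      exact pow_mem htwo b
    · rw [zpow_neg, zpow_natCast, ← inv_pow, ← one_div]
      exact pow_mem hhalf b
  refine curve_infinite hP ht (hall T _ (fun h j => ?_) (fun h => ?_) (fun h F hF hFh => ?_)
    (iter_curve (D := q) le_rfl hQ hP))
  · rw [Polynomial.eval_eq_sum_range' (n := N + 1) (by have := hP.deg j; omega)]
    exact sum_mem fun i hi => mul_mem (hmem j i (Finset.mem_range.1 hi)) (pow_mem (htw _) _)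
  · rw [← UG.eval_aeval, hκ, Polynomial.eval_mul, Polynomial.eval_C, Polynomial.eval_pow,
      Polynomial.eval_X, mul_inv]
    refine mul_mem hcinv ?_
    unfold tw
    rw [← inv_pow, ← zpow_neg]
    exact pow_mem (htw _) _
  · rw [← UG.eval_aeval, hP.mem F hF hFh, Polynomial.eval_zero]

end Pool.Agent.V1153.UR
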