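import Pool.Agent.V1153.UR.Rec
import Pool.Agent.V1153.IT.ArU
import Pool.Agent.TH409.SH.Conv

/-!
Rational curves on varieties over number fields, families given by iterated recurrences, and
exponential maps, uniformly in all varieties of bounded degree.
-/

set_option autoImplicit false

namespace Pool.Agent.V1153.UR

open MvPolynomial Pool.Agent.V1153.UG Pool.Agent.V1153.IT Pool.Agent.V1153.XS
open Pool.Agent.Y377.ST (IterVec ptsOff)

variable {n : ℕ} {k : Type} [Field k]

/-- All nonconstant rational curves in the variety with the equations `FF`, embedded by `σ`, are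
contained in `G = 0`. -/
def RatIn (σ : k →+* ℂ) (FF : Set (MvPolynomial (Fin (n + 1)) k))
    (G : MvPolynomial (Fin (n + 1)) k) : Prop :=
  ∀ q : Fin (n + 1) → Polynomial ℂ,
    (∀ F ∈ FF, ∀ z, eval (fun j => (q j).eval z) (map σ F) = 0) →
    (∃ s t i j, (q i).eval s * (q j).eval t ≠ (q j).eval s * (q i).eval t) →
    ∀ z, eval (fun j => (q j).eval z) (map σ G) = 0

/-- All nonconstant entire curves in the variety with the equations `FF`, embedded by `σ`, are
contained in `G = 0`. -/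
def BrodyIn (σ : k →+* ℂ) (FF : Set (MvPolynomial (Fin (n + 1)) k))
    (G : MvPolynomial (Fin (n + 1)) k) : Prop :=
  ∀ f : ℂ → Fin (n + 1) → ℂ, (∀ j, Differentiable ℂ fun z => f z j) → (∀ z, f z ≠ 0) →
    (∀ F ∈ FF, ∀ z, eval (f z) (map σ F) = 0) →
    (∃ s t i j, f s i * f t j ≠ f s j * f t i) → ∀ z, eval (f z) (map σ G) = 0

/-- The families of points given by iterated recurrences of type `(s, r, e)` have at most `B s r e`
points outside of `G = 0`. -/
def FamBound (FF : Set (MvPolynomial (Fin (n + 1)) k)) (G : MvPolynomial (Fin (n + 1)) k)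
    (B : ℕ → ℕ → ℕ → ℕ) : Prop :=
  ∀ (s r e : ℕ) (L : Type) [Field L] (ι : k →+* L) (_ : L →+* ℂ) (H : Type) [Group H]
    (x : H → Fin (n + 1) → L), (∀ h, ∀ F ∈ FF, eval (x h) (map ι F) = 0) → IterVec s r e x →
      (ptsOff (map ι G) x).encard ≤ (B s r e : ℕ∞)

/-- The sequences of points over number fields, given by polynomials in the powers `u ^ h`,
`h ∈ ℤ`, have finitely many points outside of `G = 0`. -/
def SeqFinite (σ : k →+* ℂ) (FF : Set (MvPolynomial (Fin (n + 1)) k))
    (G : MvPolynomial (Fin (n + 1)) k) : Prop :=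
  ∀ (e : ℕ) (L : IntermediateField ℚ ℂ), FiniteDimensional ℚ L → (∀ a, σ a ∈ L) →
    ∀ x : Multiplicative ℤ → Fin (n + 1) → ℂ, (∀ h j, x h j ∈ L) →
      (∀ h, ∀ F ∈ FF, eval (x h) (map σ F) = 0) → IterVec 1 1 e x →
        (ptsOff (map σ G) x).Finite

/-- The meromorphic maps from all affine spaces given by sums of `r` products of a polynomial of
degree at most `e` and the exponential of an entire function are, for all `r` and `e`, constant or
contained in `G = 0`. -/
def ExpIn (σ : k →+* ℂ) (FF : Set (MvPolynomial (Fin (n + 1)) k))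
    (G : MvPolynomial (Fin (n + 1)) k) : Prop :=
  ∀ (m r e : ℕ) (f : (Fin m → ℂ) → Fin (n + 1) → ℂ),
    ExpMap m r e (Ideal.span (map σ '' FF)) 1 f → ∀ z, eval (f z) (map σ G) = 0

theorem eval_span {σ : k →+* ℂ} {FF : Set (MvPolynomial (Fin (n + 1)) k)} {v : Fin (n + 1) → ℂ}
    (h : ∀ F ∈ FF, eval v (map σ F) = 0) (F : MvPolynomial (Fin (n + 1)) ℂ)
    (hF : F ∈ Ideal.span (map σ '' FF)) : eval v F = 0 := by
  have h6 : Ideal.span (map σ '' FF) ≤ RingHom.ker (eval v) := by
    rw [Ideal.span_le]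
    rintro _ ⟨F', hF', rfl⟩
    exact h F' hF'
  exact h6 hF

/-- polynomial curves in the sense of `GmBdd` -/
theorem gmBdd_of {σ : k →+* ℂ} {FF : Set (MvPolynomial (Fin (n + 1)) k)}
    {q : Fin (n + 1) → Polynomial ℂ}
    (h : ∀ F ∈ FF, ∀ z, eval (fun j => (q j).eval z) (map σ F) = 0)
    (hnc : ∃ s t i j, (q i).eval s * (q j).eval t ≠ (q j).eval s * (q i).eval t) :
    ∃ N, GmBdd (Ideal.span (map σ '' FF)) 1 N q := by
  refine ⟨Finset.univ.sup fun j => (q j).natDegree, fun j =>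
    Finset.le_sup (f := fun j => (q j).natDegree) (Finset.mem_univ j), fun F hF _ => ?_,
    ⟨1, 0, one_ne_zero, by simp⟩, hnc⟩
  apply Polynomial.funext
  intro t
  rw [UG.eval_aeval, Polynomial.eval_zero]
  exact eval_span (fun F hF => h F hF t) F hF

theorem vanGm_of {σ : k →+* ℂ} {FF : Set (MvPolynomial (Fin (n + 1)) k)}
    (hom : ∀ F ∈ FF, ∃ a, F.IsHomogeneous a) {G : MvPolynomial (Fin (n + 1)) k}
    (h : RatIn σ FF G) (N : ℕ) : VanGm (Ideal.span (map σ '' FF)) 1 N (map σ G) := by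
  intro P hP t
  refine h P (fun F hF z => ?_) hP.nc t
  obtain ⟨a, ha⟩ := hom F hF
  rw [← UG.eval_aeval, hP.mem (map σ F) (Ideal.subset_span ⟨F, hF, rfl⟩) ⟨a, ha.map σ⟩,
    Polynomial.eval_zero]

theorem brody_rat {σ : k →+* ℂ} {FF : Set (MvPolynomial (Fin (n + 1)) k)}
    (hom : ∀ F ∈ FF, ∃ a, F.IsHomogeneous a) {G : MvPolynomial (Fin (n + 1)) k}
    {γ : ℕ} (hG : G.IsHomogeneous γ) (h : BrodyIn σ FF G) : RatIn σ FF G := by
  intro q hq hnc z
  obtain ⟨N, hN⟩ := gmBdd_of hq hnc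
  obtain ⟨g, P', -, hPP, hpr⟩ := hN.prim (isHomogeneous_one _ _)
  refine vanish_P hPP (hG.map σ) (fun t _ => ?_) z
  refine h (fun z j => (P' j).eval z) (fun j => (P' j).differentiable) (fun z h0 => ?_)
    (fun F hF z => ?_) ?_ t
  · obtain ⟨j, hj⟩ := hpr.ne z
    exact hj (congrFun h0 j)
  · obtain ⟨a, ha⟩ := hom F hF
    exact hpr.mem z (map σ F) (Ideal.subset_span ⟨F, hF, rfl⟩) ⟨a, ha.map σ⟩
  · obtain ⟨s, t, j, l, -, -, hst⟩ := hpr.nc
    exact ⟨s, t, j, l, hst⟩

/-- maps given by exponentials -/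
theorem rat_exp {σ : k →+* ℂ} {FF : Set (MvPolynomial (Fin (n + 1)) k)}
    (hom : ∀ F ∈ FF, ∃ a, F.IsHomogeneous a) {G : MvPolynomial (Fin (n + 1)) k}
    {γ : ℕ} (hG : G.IsHomogeneous γ) (h : RatIn σ FF G) : ExpIn σ FF G := by
  intro m r e f hf z
  obtain ⟨N, hN⟩ := exp_point (Ideal.span (map σ '' FF))
    (isHomogeneous_one (R := ℂ) (Fin (n + 1))) r e
  have h1 : ∀ x, f x ≠ 0 → eval (f x) (map σ G) = 0 := by
    intro x hx
    obtain ⟨P, hP, hP1⟩ := hN m f hf x hx
    rw [← hP1]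
    exact vanGm_of hom h N P hP 1
  by_cases hz : f z = 0
  · obtain ⟨z', w, j, l, hne⟩ := hf.nc
    obtain ⟨x, hx⟩ : ∃ x, f x ≠ 0 := by
      by_contra h0
      push Not at h0
      apply hne
      rw [h0 z', h0 w]
      rfl
    have h3 := eval_homog (hG.map σ) 0 (f x)
    rw [h1 x hx, mul_zero] at h3
    rw [hz]
    have h4 : (0 : Fin (n + 1) → ℂ) = fun j => 0 * f x j := by
      funext j
      rw [zero_mul]
      rfl
    rw [h4]
    exact h3
  · exact h1 z hz

theorem exp_rat {σ : k →+* ℂ} {FF : Set (MvPolynomial (Fin (n + 1)) k)}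
    {G : MvPolynomial (Fin (n + 1)) k} (h : ExpIn σ FF G) : RatIn σ FF G := by
  intro q hq hnc z
  set e := Finset.univ.sup fun j => (q j).natDegree with he
  refine h 1 1 e (fun z j => (q j).eval (z 0)) ⟨fun j => ?_, fun z F hF _ =>
    eval_span (fun F hF => hq F hF (z 0)) F hF, fun z => by rw [map_one]; exact one_ne_zero, ?_⟩
    (fun _ => z)
  · refine ⟨fun _ => Polynomial.aeval (X 0) (q j), fun _ _ => 0, fun _ => ⟨?_,
      differentiable_const _⟩, fun z => ?_⟩
    · have h1 : (q j).natDegree ≤ e :=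
        Finset.le_sup (f := fun j => (q j).natDegree) (Finset.mem_univ j)
      rw [Polynomial.aeval_eq_sum_range]
      refine (totalDegree_finsetSum _ _).trans (Finset.sup_le fun i hi => ?_)
      refine (totalDegree_smul_le _ _).trans ?_
      rw [totalDegree_X_pow]
      have := Finset.mem_range.1 hi
      omega
    · have h1 : eval z (Polynomial.aeval (X 0 : MvPolynomial (Fin 1) ℂ) (q j)) =
          (q j).eval (z 0) := by
        rw [Polynomial.aeval_eq_sum_range, map_sum, Polynomial.eval_eq_sum_range]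
        refine Finset.sum_congr rfl fun i _ => ?_
        rw [smul_eval, map_pow, eval_X]
      simp [h1]
  · obtain ⟨s, t, i, j, hst⟩ := hnc
    exact ⟨fun _ => s, fun _ => t, i, j, hst⟩

end Pool.Agent.V1153.UR
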