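import Pool.Agent.V1153.UR.Log
import Pool.Agent.V1153.UR.Num
import Pool.Agent.V1153.IT.ArU
import Pool.Agent.V1153.OD.Tfae
import Pool.Agent.V1153.UG.Spc

/-!
Varieties all of whose subvarieties are of log general type.
-/

set_option autoImplicit false

namespace Pool.Agent.V1153.UR

open MvPolynomial Pool.Agent.V1153.UG Pool.Agent.V1153.IT
open Pool.Agent.Y377.ST (IterVec ptsOff)
open Pool.Agent.TH143.GT (FunField)
open Pool.Agent.W602.GT (LogGeneralType)
open Pool.Agent.W603.GR (OffQ)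

variable {n : ℕ}

/-- All integral closed subvarieties with more than one point of the complement of the hypersurface
`Q = 0` of degree `q` in the projective variety with the ideal `J` are of log general type. -/
def AllLogGeneral (J : Ideal (MvPolynomial (Fin (n + 1)) ℂ)) (Q : MvPolynomial (Fin (n + 1)) ℂ)
    (q : ℕ) : Prop :=
  ∀ I : Ideal (MvPolynomial (Fin (n + 1)) ℂ), I.IsPrime → J ≤ I → Q ∉ I →
    (∃ v w : Fin (n + 1) → ℂ, (∀ F ∈ I, (∃ d, F.IsHomogeneous d) → eval v F = 0) ∧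
      (∀ F ∈ I, (∃ d, F.IsHomogeneous d) → eval w F = 0) ∧ eval v Q ≠ 0 ∧ eval w Q ≠ 0 ∧
      ∃ i j, v i * w j ≠ v j * w i) →
    ∃ (K : Type) (_ : Field K) (_ : Algebra ℂ K) (w : ℕ) (y : Fin (n + 1) → K),
      FunField I Q K w y ∧ LogGeneralType ℂ K w (OffQ Q q y)

/-- the cone over a parametrised curve -/
noncomputable def cone (P : Fin (n + 1) → Polynomial ℂ) :
    MvPolynomial (Fin (n + 1)) ℂ →+* Polynomial (Polynomial ℂ) :=
  (aeval fun j => Polynomial.X * Polynomial.C (P j) :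
    MvPolynomial (Fin (n + 1)) ℂ →ₐ[ℂ] Polynomial (Polynomial ℂ)).toRingHom

theorem cone_homog {P : Fin (n + 1) → Polynomial ℂ} {F : MvPolynomial (Fin (n + 1)) ℂ} {d : ℕ}
    (hF : F.IsHomogeneous d) :
    cone P F = Polynomial.X ^ d * Polynomial.C (aeval P F) := by
  have h1 : cone P F = aeval (fun j => Polynomial.X * Polynomial.C (P j) :
      Fin (n + 1) → Polynomial (Polynomial ℂ)) F := rfl
  rw [h1, aeval_def, eval₂_eq']
  have h2 : (Polynomial.C (aeval P F) : Polynomial (Polynomial ℂ)) =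
      ∑ s ∈ F.support, algebraMap ℂ (Polynomial (Polynomial ℂ)) (coeff s F) *
        ∏ i, (Polynomial.C (P i) : Polynomial (Polynomial ℂ)) ^ s i := by
    rw [aeval_def, eval₂_eq', map_sum]
    refine Finset.sum_congr rfl fun s _ => ?_
    rw [map_mul, map_prod]
    simp only [map_pow]
    rfl
  rw [h2, Finset.mul_sum]
  refine Finset.sum_congr rfl fun s hs => ?_
  have h3 := hF (mem_support_iff.1 hs)
  rw [Finsupp.weight_apply, Finsupp.sum_fintype _ _ (by simp)] at h3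
  have h4 : ∑ i, s i = d := by simpa using h3
  simp_rw [mul_pow]
  rw [Finset.prod_mul_distrib, Finset.prod_pow_eq_pow_sum, h4]
  ring

theorem cone_zero_iff {P : Fin (n + 1) → Polynomial ℂ} {F : MvPolynomial (Fin (n + 1)) ℂ} {d : ℕ}
    (hF : F.IsHomogeneous d) : cone P F = 0 ↔ aeval P F = 0 := by
  rw [cone_homog hF]
  constructor
  · intro h
    rcases mul_eq_zero.1 h with h1 | h1
    · exact absurd h1 (pow_ne_zero _ Polynomial.X_ne_zero)
    · exact Polynomial.C_eq_zero.1 h1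
  · intro h
    rw [h, Polynomial.C_0, mul_zero]

/-- **Varieties all of whose subvarieties are of log general type contain no curves of the
punctured line.** -/
theorem no_gm_of_all {E : Set (MvPolynomial (Fin (n + 1)) ℂ)} (hE : ∀ F ∈ E, ∃ a, F.IsHomogeneous a)
    {Q : MvPolynomial (Fin (n + 1)) ℂ} {q : ℕ} (hQ : Q.IsHomogeneous q)
    (h : AllLogGeneral (Ideal.span E) Q q) (N : ℕ) (P : Fin (n + 1) → Polynomial ℂ) :
    ¬ GmBdd (Ideal.span E) Q N P := by
  intro hP
  obtain ⟨g, P', hg, hPP, hpr⟩ := hP.prim hQ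
  have hP' : GmBdd (Ideal.span E) Q N P' := Pool.Agent.V1153.OD.prim_bdd hQ hP hg hPP hpr
  obtain ⟨c, κ, hc, hκ⟩ := hP'.off
  set I : Ideal (MvPolynomial (Fin (n + 1)) ℂ) := RingHom.ker (cone P') with hI
  have hIp : I.IsPrime := RingHom.ker_isPrime _
  have hIm : ∀ F : MvPolynomial (Fin (n + 1)) ℂ, (∃ d, F.IsHomogeneous d) →
      (F ∈ I ↔ aeval P' F = 0) := by
    rintro F ⟨d, hd⟩
    rw [hI, RingHom.mem_ker]
    exact cone_zero_iff hd
  have hon : ∀ t, ∀ F ∈ I, (∃ d, F.IsHomogeneous d) → eval (fun j => (P' j).eval t) F = 0 := by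
    intro t F hF hFh
    rw [← UG.eval_aeval, (hIm F hFh).1 hF, Polynomial.eval_zero]
  obtain ⟨s, t, j, l, hs, ht, hst⟩ := hpr.nc
  obtain ⟨K, iK, iA, w, y, hy, hL⟩ := h I hIp (by
    rw [Ideal.span_le]
    intro F hF
    exact (hIm F (hE F hF)).2 (hP'.mem F (Ideal.subset_span hF) (hE F hF))) (by
    rw [hIm Q ⟨q, hQ⟩, hκ]
    exact mul_ne_zero (Polynomial.C_ne_zero.2 hc) (pow_ne_zero _ Polynomial.X_ne_zero))
    ⟨fun j => (P' j).eval s, fun j => (P' j).eval t, hon s, hon t, hpr.off s hs, hpr.off t ht,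
      j, l, hst⟩
  refine not_ruled_of_lgt hQ hy hL ⟨ℂ, inferInstance, inferInstance, P', fun F hF hFh =>
    (hIm F hFh).1 hF, ⟨c, κ, hc, hκ⟩, fun G hG hGI h0 => hGI ((hIm G hG).2 h0), wr_of_nc ?_⟩
  exact ⟨s, t, j, l, hst⟩

/-- **One bound for all varieties of bounded degree all of whose subvarieties are of log general
type.** -/
theorem all_bound (n D : ℕ) : ∃ B : ℕ → ℕ → ℕ → ℕ, ∀ (L : Type) [Field L] (τ : L →+* ℂ)
    (E : Set (MvPolynomial (Fin (n + 1)) L)) (Q : MvPolynomial (Fin (n + 1)) L) (q : ℕ), q ≤ D →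
    Q.IsHomogeneous q → (∀ F ∈ E, ∃ a ≤ D, F.IsHomogeneous a) →
    AllLogGeneral (Ideal.span (map τ '' E)) (map τ Q) q →
    ∀ (s r e : ℕ) (H : Type) [Group H] (x : H → Fin (n + 1) → L),
      (∀ h, ∀ F ∈ E, eval (x h) F = 0) → IterOff s r e Q x →
        {p : Projectivization L (Fin (n + 1) → L) | ∃ (h : H) (h0 : x h ≠ 0),
          p = Projectivization.mk L (x h) h0}.encard ≤ (B s r e : ℕ∞) := by
  choose B hB using fun s r e => arith_family n D s r e
  refine ⟨B, fun L _ τ E Q q hq hQ hE hall s r e H _ x hx hit => ?_⟩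
  have hno : ∀ P, ¬ GmBdd (Ideal.span (map τ '' E)) (map τ Q) (B s r e) P := fun P =>
    no_gm_of_all (by
      rintro _ ⟨F, hF, rfl⟩
      obtain ⟨a, -, ha⟩ := hE F hF
      exact ⟨a, ha.map τ⟩) (hQ.map τ) hall _ P
  refine (Set.encard_le_encard ?_).trans (hB s r e L τ E Q 1 hE ⟨q, hq, hQ⟩
    ⟨0, Nat.zero_le _, isHomogeneous_one _ _⟩ (fun P hP => absurd hP (hno P)) H x hx hit)
  rintro p ⟨h, h0, hp⟩
  refine ⟨h, h0, ?_, hp⟩
  rw [map_one]
  exact one_ne_zero

end Pool.Agent.V1153.UR
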