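import Pool.Agent.Y377.ST.Conv
import Pool.Agent.V1153.IT.ArC

/-!
Families given by iterated recurrences: values of forms.
-/

set_option autoImplicit false

namespace Pool.Agent.V1153.UR

open MvPolynomial Pool.Agent.Y377.ST

section

variable {L ι : Type} [CommRing L] [Fintype ι] [DecidableEq ι]

/-- the function `f` is given by a polynomial of degree at most `e` in each variable -/
def PevFn (e : ℕ) (f : (ι → L) → L) : Prop := ∃ c : (ι → Fin (e + 1)) → L, ∀ v, f v = pev c v

theorem PevFn.mon {e : ℕ} (c0 : L) (m0 : ι → ℕ) (hm : ∀ i, m0 i ≤ e) :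
    PevFn e fun v : ι → L => c0 * ∏ i, v i ^ m0 i := by
  classical
  set a : ι → Fin (e + 1) := fun i => ⟨m0 i, by have := hm i; omega⟩ with ha
  refine ⟨fun m => if m = a then c0 else 0, fun v => ?_⟩
  unfold pev
  rw [Finset.sum_eq_single a]
  · change _ = (if a = a then c0 else 0) * _
    rw [if_pos rfl]
  · intro m _ hm
    change (if m = a then c0 else 0) * _ = _
    rw [if_neg hm, zero_mul]
  · intro h
    exact absurd (Finset.mem_univ _) h

theorem PevFn.add {e : ℕ} {f g : (ι → L) → L} (hf : PevFn e f) (hg : PevFn e g) :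
    PevFn e fun v => f v + g v := by
  obtain ⟨c, hc⟩ := hf
  obtain ⟨c', hc'⟩ := hg
  refine ⟨fun m => c m + c' m, fun v => ?_⟩
  change f v + g v = _
  rw [hc, hc']
  unfold pev
  rw [← Finset.sum_add_distrib]
  exact Finset.sum_congr rfl fun m _ => (add_mul _ _ _).symm

theorem PevFn.zero (e : ℕ) : PevFn e fun _ : ι → L => 0 := by
  refine ⟨fun _ => 0, fun v => ?_⟩
  unfold pev
  exact (Finset.sum_eq_zero fun m _ => zero_mul _).symm

theorem PevFn.sum {e : ℕ} {κ : Type} (s : Finset κ) (f : κ → (ι → L) → L)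
    (h : ∀ k ∈ s, PevFn e (f k)) : PevFn e fun v => ∑ k ∈ s, f k v := by
  classical
  induction s using Finset.induction_on with
  | empty => simpa only [Finset.sum_empty] using PevFn.zero e
  | insert a s ha ih =>
    simp only [Finset.sum_insert ha]
    exact PevFn.add (h a (Finset.mem_insert_self _ _))
      (ih fun k hk => h k (Finset.mem_insert_of_mem hk))

theorem PevFn.const (e : ℕ) (c0 : L) : PevFn e fun _ : ι → L => c0 := by
  have := PevFn.mon (e := e) (ι := ι) c0 (fun _ => 0) fun _ => Nat.zero_le _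
  simpa only [pow_zero, Finset.prod_const_one, mul_one] using this

theorem PevFn.mono {e e' : ℕ} (he : e ≤ e') {f : (ι → L) → L} (hf : PevFn e f) : PevFn e' f := by
  obtain ⟨c, hc⟩ := hf
  have h1 : PevFn e' fun v : ι → L => ∑ m : ι → Fin (e + 1), c m * ∏ i, v i ^ (m i : ℕ) :=
    PevFn.sum Finset.univ (fun m v => c m * ∏ i, v i ^ (m i : ℕ)) fun m _ =>
      PevFn.mon (c m) (fun i => (m i : ℕ)) fun i => (Nat.lt_succ_iff.1 (m i).2).trans he
  obtain ⟨c', hc'⟩ := h1
  exact ⟨c', fun v => (hc v).trans (hc' v)⟩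

theorem PevFn.mul {e e' : ℕ} {f g : (ι → L) → L} (hf : PevFn e f) (hg : PevFn e' g) :
    PevFn (e + e') fun v => f v * g v := by
  obtain ⟨c, hc⟩ := hf
  obtain ⟨c', hc'⟩ := hg
  have h1 : PevFn (e + e') fun v : ι → L =>
      ∑ a : (ι → Fin (e + 1)) × (ι → Fin (e' + 1)),
        (c a.1 * c' a.2) * ∏ i, v i ^ ((a.1 i : ℕ) + (a.2 i : ℕ)) :=
    PevFn.sum Finset.univ (fun (a : (ι → Fin (e + 1)) × (ι → Fin (e' + 1))) v =>
      (c a.1 * c' a.2) * ∏ i, v i ^ ((a.1 i : ℕ) + (a.2 i : ℕ)))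
      fun a _ => PevFn.mon _ (fun i => (a.1 i : ℕ) + (a.2 i : ℕ)) fun i =>
        add_le_add (Nat.lt_succ_iff.1 (a.1 i).2) (Nat.lt_succ_iff.1 (a.2 i).2)
  obtain ⟨d, hd⟩ := h1
  refine ⟨d, fun v => ?_⟩
  rw [← hd v]
  change f v * g v = _
  rw [hc, hc']
  unfold pev
  rw [Finset.sum_mul_sum, ← Finset.sum_product', Finset.univ_product_univ]
  refine Finset.sum_congr rfl fun a _ => ?_
  rw [Finset.prod_congr rfl fun i _ => pow_add (v i) _ _, Finset.prod_mul_distrib]
  ring

end

/-- values of forms -/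
theorem pevFn_eval {L : Type} [Field L] {n : ℕ} (F : MvPolynomial (Fin (n + 1)) L) (e : ℕ) :
    ∃ e' : ℕ, ∀ (ι : Type) [Fintype ι] [DecidableEq ι] (x : Fin (n + 1) → (ι → L) → L),
      (∀ j, PevFn e (x j)) → PevFn e' fun v => eval (fun j => x j v) F := by
  induction F using MvPolynomial.induction_on with
  | C c => exact ⟨0, fun ι _ _ x _ => by simpa only [eval_C] using PevFn.const 0 c⟩
  | add p q hp hq =>
    obtain ⟨e1, h1⟩ := hp
    obtain ⟨e2, h2⟩ := hq
    refine ⟨max e1 e2, fun ι _ _ x hx => ?_⟩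
    simpa only [map_add] using PevFn.add (PevFn.mono (le_max_left _ _) (h1 ι x hx))
      (PevFn.mono (le_max_right _ _) (h2 ι x hx))
  | mul_X p i hp =>
    obtain ⟨e1, h1⟩ := hp
    refine ⟨e1 + e, fun ι _ _ x hx => ?_⟩
    simpa only [map_mul, eval_X] using PevFn.mul (h1 ι x hx) (hx i)

theorem iter_mono {L H : Type} [CommRing L] [Group H] {s r e e' : ℕ} (he : e ≤ e')
    {X Y : Fin s → H → Matrix (Fin r) (Fin r) L} (h : Iter e X Y) : Iter e' X Y := by
  refine ⟨h.inv, fun l g i j => ?_⟩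
  obtain ⟨c, hc⟩ := h.coc l g i j
  obtain ⟨c', hc'⟩ := PevFn.mono he (⟨c, fun v => rfl⟩ : PevFn e fun v => pev c v)
  exact ⟨c', fun h => (hc h).trans (hc' _)⟩

/-- **The images of a family given by iterated recurrences.** -/
theorem iterVec_image {L : Type} [Field L] {n m : ℕ}
    (g : Fin (m + 1) → MvPolynomial (Fin (n + 1)) L) (e : ℕ) :
    ∃ e' : ℕ, ∀ (s r : ℕ) (H : Type) [Group H] (x : H → Fin (n + 1) → L), IterVec s r e x →
      IterVec s r e' (fun h => (Fin.cons 1 fun i => eval (x h) (g i) : Fin (m + 2) → L)) := by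
  choose E hE using fun i => pevFn_eval (g i) e
  refine ⟨e + Finset.univ.sup E, fun s r H _ x hx => ?_⟩
  obtain ⟨X, Y, hX, hc⟩ := hx
  choose c hc using hc
  refine ⟨X, Y, iter_mono (Nat.le_add_right _ _) hX, fun j => ?_⟩
  refine Fin.cases ?_ (fun i => ?_) j
  · obtain ⟨d, hd⟩ := PevFn.const (ι := Ix s r) (e + Finset.univ.sup E) (1 : L)
    exact ⟨d, fun h => hd _⟩
  · obtain ⟨d, hd⟩ := PevFn.mono (e' := e + Finset.univ.sup E)
      ((Finset.le_sup (Finset.mem_univ i)).trans (Nat.le_add_left _ _))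
      (hE i (Ix s r) (fun j v => pev (c j) v) fun j => ⟨c j, fun v => rfl⟩)
    refine ⟨d, fun h => ?_⟩
    rw [← hd]
    change eval (x h) (g i) = eval (fun j => pev (c j) (entries X Y h)) (g i)
    congr 2
    funext j
    exact hc j h

end Pool.Agent.V1153.UR
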