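import Pool.Agent.V1153.UR.LogB
import Pool.Agent.V1153.UR.NumB

/-!
Specialisation of curves of the punctured line to number fields.
-/

set_option autoImplicit false

namespace Pool.Agent.V1153.UR

open MvPolynomial Pool.Agent.V1153.UG Pool.Agent.V1153.IT

/-- a point over a number field of an algebra of finite type at which a given element does not
vanish -/
theorem exists_pt_nf {k : Type} [Field k] [NumberField k] (A : Type) [CommRing A] [IsDomain A]
    [Algebra k A] [Algebra.FiniteType k A] (f : A) (hf : f ≠ 0) :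
    ∃ (K : Type) (_ : Field K) (_ : NumberField K) (_ : Algebra k K) (h : A →ₐ[k] K), h f ≠ 0 := by
  have hJ : IsJacobsonRing A := isJacobsonRing_of_finiteType (A := k)
  have h1 : (⊥ : Ideal A).jacobson = ⊥ := hJ.out (Ideal.isPrime_bot (α := A)).isRadical
  have h2 : f ∉ (⊥ : Ideal A).jacobson := by
    rw [h1]
    simpa using hf
  rw [Ideal.jacobson, Submodule.mem_sInf] at h2
  push Not at h2
  obtain ⟨m, ⟨-, hm⟩, hfm⟩ := h2
  let F := A ⧸ m
  let _ : Field F := Ideal.Quotient.field m
  have hF : Algebra.FiniteType k F := Algebra.FiniteType.of_surjective (Ideal.Quotient.mkₐ k m)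
    Ideal.Quotient.mk_surjective
  have hfin : Module.Finite k F := finite_of_finite_type_of_isJacobsonRing k F
  have : NumberField F := NumberField.of_module_finite k F
  refine ⟨F, inferInstance, this, inferInstance, Ideal.Quotient.mkₐ k m, fun h0 => hfm ?_⟩
  exact Ideal.Quotient.eq_zero_iff_mem.1 h0

theorem special_nf {k' : Type} [Field k'] [NumberField k'] {N : ℕ}
    {Q G' : MvPolynomial (Fin (N + 1)) k'} {S : Set (MvPolynomial (Fin (N + 1)) k')}
    {M : Type} [Field M] [Algebra k' M] {P : Fin (N + 1) → Polynomial M}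
    (hP : ∀ G ∈ S, aeval P G = 0)
    (hQ : ∃ (c : M) (k : ℕ), c ≠ 0 ∧ aeval P Q = Polynomial.C c * Polynomial.X ^ k)
    (hn : ∃ j k, Polynomial.derivative (P j) * P k ≠ P j * Polynomial.derivative (P k))
    (hG : aeval P G' ≠ 0) :
    ∃ (K : Type) (_ : Field K) (_ : NumberField K) (_ : Algebra k' K)
      (p : Fin (N + 1) → Polynomial K), (∀ j, (p j).natDegree ≤ (P j).natDegree) ∧
      (∀ G ∈ S, aeval p G = 0) ∧
      (∃ (c : K) (k : ℕ), c ≠ 0 ∧ aeval p Q = Polynomial.C c * Polynomial.X ^ k) ∧
      (∃ j k, Polynomial.derivative (p j) * p k ≠ p j * Polynomial.derivative (p k)) ∧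
      aeval p G' ≠ 0 := by
  classical
  obtain ⟨c, k0, hc0, hQ⟩ := hQ
  obtain ⟨j, k, hjk⟩ := hn
  let s : Finset M := Finset.univ.biUnion fun l : Fin (N + 1) => (P l).coeffs
  let A : Subalgebra k' M := Algebra.adjoin k' (s : Set M)
  have hft : Algebra.FiniteType k' A := A.fg_iff_finiteType.1 (Subalgebra.fg_adjoin_finset s)
  have hcoef : ∀ l i, (P l).coeff i ∈ A := by
    intro l i
    by_cases h0 : (P l).coeff i = 0
    · rw [h0]
      exact A.zero_mem
    · refine Algebra.subset_adjoin ?_
      rw [Finset.mem_coe, Finset.mem_biUnion]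
      exact ⟨l, Finset.mem_univ _, Polynomial.coeff_mem_coeffs h0⟩
  have hl : ∀ l, ∃ q : Polynomial A, q.map (A.val : A →+* M) = P l := by
    intro l
    rw [← Polynomial.mem_lifts, Polynomial.lifts_iff_coeff_lifts]
    intro i
    exact ⟨⟨_, hcoef l i⟩, rfl⟩
  choose P0 hP0 using hl
  have hinj : Function.Injective (Polynomial.map (A.val : A →+* M)) :=
    Polynomial.map_injective _ Subtype.val_injective
  have hev : ∀ G : MvPolynomial (Fin (N + 1)) k', (aeval P0 G).map (A.val : A →+* M) = aeval P G := by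
    intro G
    have h1 := comp_aeval_apply (f := P0) (Polynomial.mapAlgHom A.val) G
    have h2 : (fun i => Polynomial.mapAlgHom A.val (P0 i)) = P := funext hP0
    rw [h2] at h1
    exact h1
  obtain ⟨c1, hc1⟩ : ∃ c1 : A, (c1 : M) = c := by
    refine ⟨(aeval P0 Q : Polynomial A).coeff k0, ?_⟩
    have h1 := congrArg (fun q : Polynomial M => q.coeff k0) (hev Q)
    simp only [Polynomial.coeff_map] at h1
    rw [hQ, Polynomial.coeff_C_mul, Polynomial.coeff_X_pow_self, mul_one] at h1
    exact h1
  have hc10 : c1 ≠ 0 := by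
    rintro rfl
    exact hc0 hc1.symm
  have hQ0 : (aeval P0 Q : Polynomial A) = Polynomial.C c1 * Polynomial.X ^ k0 := by
    apply hinj
    rw [hev, hQ, Polynomial.map_mul, Polynomial.map_pow, Polynomial.map_X, Polynomial.map_C, ← hc1]
    rfl
  have hg : ∃ n, (aeval P0 G' : Polynomial A).coeff n ≠ 0 := by
    by_contra hcon
    push Not at hcon
    apply hG
    have h1 : (aeval P0 G' : Polynomial A) = 0 :=
      Polynomial.ext fun n => by rw [hcon n, Polynomial.coeff_zero]
    rw [← hev, h1, Polynomial.map_zero]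
  obtain ⟨n, hn⟩ := hg
  have hw : ∃ n', (Polynomial.derivative (P0 j) * P0 k -
      P0 j * Polynomial.derivative (P0 k)).coeff n' ≠ 0 := by
    by_contra hcon
    push Not at hcon
    apply hjk
    have h1 : Polynomial.derivative (P0 j) * P0 k - P0 j * Polynomial.derivative (P0 k) = 0 :=
      Polynomial.ext fun n => by rw [hcon n, Polynomial.coeff_zero]
    have h2 := congrArg (Polynomial.map (A.val : A →+* M)) (sub_eq_zero.1 h1)
    rw [Polynomial.map_mul, Polynomial.map_mul, ← Polynomial.derivative_map,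
      ← Polynomial.derivative_map, hP0, hP0] at h2
    exact h2
  obtain ⟨n', hn'⟩ := hw
  obtain ⟨K, iK, iN, iA, h, hh⟩ := exists_pt_nf (k := k') A _
    (mul_ne_zero (mul_ne_zero hn hn') hc10)
  rw [map_mul, map_mul] at hh
  have hh3 := right_ne_zero_of_mul hh
  have hh4 := left_ne_zero_of_mul hh
  have hh1 := left_ne_zero_of_mul hh4
  have hh2 := right_ne_zero_of_mul hh4
  have hevh : ∀ G : MvPolynomial (Fin (N + 1)) k',
      aeval (fun l => (P0 l).map (h : A →+* K)) G = (aeval P0 G).map (h : A →+* K) := by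
    intro G
    exact (comp_aeval_apply (f := P0) (Polynomial.mapAlgHom h) G).symm
  refine ⟨K, iK, iN, iA, fun l => (P0 l).map (h : A →+* K), fun l => ?_, fun G hGS => ?_, ⟨h c1, k0, hh3, ?_⟩,
    ⟨j, k, fun hc => hh2 ?_⟩, fun hfin => hh1 ?_⟩
  · refine Polynomial.natDegree_map_le.trans ?_
    rw [← hP0 l]
    exact (Polynomial.natDegree_map_eq_of_injective Subtype.val_injective (P0 l)).ge
  · have h1 : (aeval P0 G : Polynomial A) = 0 := by
      apply hinj
      rw [hev, hP G hGS, Polynomial.map_zero]
    rw [hevh, h1, Polynomial.map_zero]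
  · rw [hevh, hQ0, Polynomial.map_mul, Polynomial.map_pow, Polynomial.map_X, Polynomial.map_C]
    rfl
  · have h1 : ((Polynomial.derivative (P0 j) * P0 k - P0 j * Polynomial.derivative (P0 k)).map
        (h : A →+* K)) = 0 := by
      rw [Polynomial.map_sub, Polynomial.map_mul, Polynomial.map_mul, ← Polynomial.derivative_map,
        ← Polynomial.derivative_map, hc, sub_self]
    have h2 := congrArg (fun q : Polynomial K => q.coeff n') h1
    simp only [Polynomial.coeff_map, Polynomial.coeff_zero] at h2
    exact h2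
  · rw [hevh] at hfin
    have h2 := congrArg (fun q : Polynomial K => q.coeff n) hfin
    simp only [Polynomial.coeff_map, Polynomial.coeff_zero] at h2
    exact h2


end Pool.Agent.V1153.UR
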