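import Pool.Agent.V1153.UR.Spec
import Pool.Agent.TH143.EL.Wp

/-!
Projective varieties all of whose complex tori lie in a closed subset.
-/

set_option autoImplicit false

namespace Pool.Agent.V1153.UR

open MvPolynomial Pool.Agent.V1153.UG Pool.Agent.V1153.IT Pool.Agent.V1153.XS
open scoped LinearAlgebra.Projectivization
open Pool.Agent.TH143.EL (HolMap InV Rep TorusMapsIn ratCurves_of_torus)
open Pool.Agent.TH143.HE (RatCurvesIn NonConst IsPtP)

variable {n : ℕ}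

/-- All nonconstant holomorphic maps from one-dimensional complex tori to the projective variety with
the equations `E` are contained in `G = 0`. -/
def TorusIn (E : Set (MvPolynomial (Fin (n + 1)) ℂ)) (G : MvPolynomial (Fin (n + 1)) ℂ) : Prop :=
  ∀ ω₁ ω₂ : ℂ, LinearIndependent ℝ ![ω₁, ω₂] → ∀ t : ℂ → ℙ ℂ (Fin (n + 1) → ℂ),
    HolMap t → (∀ z, t (z + ω₁) = t z) → (∀ z, t (z + ω₂) = t z) →
      (∀ z, ∀ F ∈ E, eval (t z).rep F = 0) → (∃ z w, t z ≠ t w) → ∀ z, eval (t z).rep G = 0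

theorem TorusIn.gm {E : Set (MvPolynomial (Fin (n + 1)) ℂ)} {G : MvPolynomial (Fin (n + 1)) ℂ}
    {γ : ℕ} (hE : ∀ F ∈ E, ∃ a, F.IsHomogeneous a) (hG : G.IsHomogeneous γ) (h : TorusIn E G) :
    InGm E 1 G := by
  intro N P hP u
  have h1 : TorusMapsIn (Ideal.span E) (Ideal.span {G}) := by
    intro ω₁ ω₂ hind t ht hp1 hp2 hI hzw z G' hG' _
    have h2 := h ω₁ ω₂ hind t ht hp1 hp2 (fun z F hF =>
      hI z F (Ideal.subset_span hF) (hE F hF)) hzw z
    obtain ⟨A, rfl⟩ := Ideal.mem_span_singleton'.1 hG'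
    rw [map_mul, h2, mul_zero]
  obtain ⟨s, t, j, l, hnc⟩ := hP.nc
  have h2 := ratCurves_of_torus h1 P (fun u F hF hFh => by
    rw [eval₂_id, ← UG.eval_aeval, hP.mem F hF hFh, Polynomial.eval_zero]) ⟨j, l, s, t, hnc⟩ u G
      (Ideal.subset_span rfl) ⟨γ, hG⟩
  rw [eval₂_id] at h2
  exact h2

end Pool.Agent.V1153.UR
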